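import Mathlib

/-!
# MP_95b053_co, upper bound for `h_c`: discrete balls in `(ℤ²)^k`
-/

set_option autoImplicit false

namespace Pool.Agent.H95

open Finset

/-- squared norm -/
def nrm {k : ℕ} (p : Fin k → ℤ × ℤ) : ℤ := ∑ i, ((p i).1 ^ 2 + (p i).2 ^ 2)

/-- scalar product -/
def ip {k : ℕ} (p q : Fin k → ℤ × ℤ) : ℤ := ∑ i, ((p i).1 * (q i).1 + (p i).2 * (q i).2)

/-- discrete ball -/
noncomputable def ball (k : ℕ) (s : ℝ) : Finset (Fin k → ℤ × ℤ) :=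
  (Fintype.piFinset fun _ : Fin k =>
    Finset.Icc (-((⌊Real.sqrt s⌋₊ : ℕ) : ℤ)) ((⌊Real.sqrt s⌋₊ : ℕ) : ℤ) ×ˢ
      Finset.Icc (-((⌊Real.sqrt s⌋₊ : ℕ) : ℤ)) ((⌊Real.sqrt s⌋₊ : ℕ) : ℤ)).filter
    fun p => (nrm p : ℝ) ≤ s

theorem coord_le {s : ℝ} {a : ℤ} (h : ((a ^ 2 : ℤ) : ℝ) ≤ s) :
    -((⌊Real.sqrt s⌋₊ : ℕ) : ℤ) ≤ a ∧ a ≤ ((⌊Real.sqrt s⌋₊ : ℕ) : ℤ) := by
  have h1 : |(a : ℝ)| ≤ Real.sqrt s := by
    apply Real.abs_le_sqrt
    push_cast at h
    exact h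
  have h2 : (a.natAbs : ℝ) ≤ Real.sqrt s := by
    rw [Nat.cast_natAbs]
    push_cast
    exact h1
  have h3 : a.natAbs ≤ ⌊Real.sqrt s⌋₊ := Nat.le_floor h2
  omega

theorem mem_ball {k : ℕ} {s : ℝ} {p : Fin k → ℤ × ℤ} : p ∈ ball k s ↔ (nrm p : ℝ) ≤ s := by
  unfold ball
  rw [Finset.mem_filter]
  refine ⟨fun h => h.2, fun h => ⟨?_, h⟩⟩
  rw [Fintype.mem_piFinset]
  intro i
  have h1 : (p i).1 ^ 2 + (p i).2 ^ 2 ≤ nrm p := by
    unfold nrm
    exact Finset.single_le_sum (f := fun i => (p i).1 ^ 2 + (p i).2 ^ 2)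
      (fun j _ => by positivity) (Finset.mem_univ i)
  have h2 : (p i).1 ^ 2 ≤ nrm p := by nlinarith [sq_nonneg (p i).2]
  have h3 : (p i).2 ^ 2 ≤ nrm p := by nlinarith [sq_nonneg (p i).1]
  have h4 : (((p i).1 ^ 2 : ℤ) : ℝ) ≤ s := le_trans (by exact_mod_cast h2) h
  have h5 : (((p i).2 ^ 2 : ℤ) : ℝ) ≤ s := le_trans (by exact_mod_cast h3) h
  rw [Finset.mem_product, Finset.mem_Icc, Finset.mem_Icc]
  exact ⟨coord_le h4, coord_le h5⟩

theorem ball_coord {k : ℕ} {s : ℝ} {p : Fin k → ℤ × ℤ} (hp : p ∈ ball k s) (i : Fin k) :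
    |(p i).1| ≤ ((⌊Real.sqrt s⌋₊ : ℕ) : ℤ) ∧ |(p i).2| ≤ ((⌊Real.sqrt s⌋₊ : ℕ) : ℤ) := by
  unfold ball at hp
  rw [Finset.mem_filter, Fintype.mem_piFinset] at hp
  have h := hp.1 i
  rw [Finset.mem_product, Finset.mem_Icc, Finset.mem_Icc] at h
  exact ⟨abs_le.2 h.1, abs_le.2 h.2⟩

theorem zero_mem_ball (k : ℕ) {s : ℝ} (hs : 0 ≤ s) : (fun _ => 0 : Fin k → ℤ × ℤ) ∈ ball k s := by
  rw [mem_ball]
  simpa [nrm] using hs

theorem card_ball_le (k : ℕ) {s : ℝ} (hs : 1 ≤ s) : ((ball k s).card : ℝ) ≤ (9 * s) ^ k := by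
  have h1 : (ball k s).card ≤ ((2 * ⌊Real.sqrt s⌋₊ + 1) * (2 * ⌊Real.sqrt s⌋₊ + 1)) ^ k := by
    unfold ball
    refine (Finset.card_filter_le _ _).trans ?_
    rw [Fintype.card_piFinset, Finset.prod_const, Finset.card_univ, Fintype.card_fin,
      Finset.card_product, Int.card_Icc]
    refine Nat.pow_le_pow_left (Nat.mul_le_mul ?_ ?_) k <;> omega
  have h2 : ((ball k s).card : ℝ) ≤ ((2 * (⌊Real.sqrt s⌋₊ : ℝ) + 1) * (2 * ⌊Real.sqrt s⌋₊ + 1)) ^ k := by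
    exact_mod_cast h1
  refine h2.trans (pow_le_pow_left₀ (by positivity) ?_ k)
  have h3 : (⌊Real.sqrt s⌋₊ : ℝ) ≤ Real.sqrt s := Nat.floor_le (Real.sqrt_nonneg s)
  have h4 : 1 ≤ Real.sqrt s := by
    rw [show (1 : ℝ) = Real.sqrt 1 from Real.sqrt_one.symm]
    exact Real.sqrt_le_sqrt hs
  have h5 : Real.sqrt s * Real.sqrt s = s := Real.mul_self_sqrt (by linarith)
  have h6 : (0 : ℝ) ≤ (⌊Real.sqrt s⌋₊ : ℝ) := Nat.cast_nonneg _
  nlinarith

/-! ### second moment -/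

theorem second {k : ℕ} {s : ℝ} :
    (k : ℤ) * ∑ p ∈ ball k s, ∑ q ∈ ball k s, ip p q ^ 2 ≤ (∑ p ∈ ball k s, nrm p) ^ 2 := by
  classical
  set B := ball k s with hB
  set g : Fin k → (Fin k → ℤ × ℤ) → (Fin k → ℤ × ℤ) → ℤ := fun i p q =>
    (p i).1 * (q i).1 + (p i).2 * (q i).2 with hg
  set m : Fin k → (Fin k → ℤ × ℤ) → ℤ := fun i p => (p i).1 ^ 2 + (p i).2 ^ 2 with hm
  set W : Fin k → ℤ := fun i => ∑ p ∈ B, m i p with hW
  -- all `W i` are equal
  have hWeq : ∀ i j, W i = W j := by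
    intro i j
    refine Finset.sum_nbij' (fun p => p ∘ Equiv.swap i j) (fun p => p ∘ Equiv.swap i j) ?_ ?_ ?_ ?_ ?_
    · intro p hp
      rw [hB, mem_ball] at hp ⊢
      have : nrm (p ∘ Equiv.swap i j) = nrm p := by
        unfold nrm
        exact Equiv.sum_comp (Equiv.swap i j) (fun i => (p i).1 ^ 2 + (p i).2 ^ 2)
      rw [this]; exact hp
    · intro p hp
      rw [hB, mem_ball] at hp ⊢
      have : nrm (p ∘ Equiv.swap i j) = nrm p := by
        unfold nrm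
        exact Equiv.sum_comp (Equiv.swap i j) (fun i => (p i).1 ^ 2 + (p i).2 ^ 2)
      rw [this]; exact hp
    · intro p _
      funext x
      simp
    · intro p _
      funext x
      simp
    · intro p _
      simp only [hm, Function.comp_apply, Equiv.swap_apply_right]
  -- off-diagonal sums vanish
  have hoff : ∀ i j, i ≠ j → ∑ p ∈ B, ∑ q ∈ B, g i p q * g j p q = 0 := by
    intro i j hij
    have h1 : ∑ p ∈ B, ∑ q ∈ B, g i p q * g j p q = ∑ p ∈ B, -(∑ q ∈ B, g i p q * g j p q) := by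
      refine Finset.sum_nbij' (fun p => Function.update p i (-(p i)))
        (fun p => Function.update p i (-(p i))) ?_ ?_ ?_ ?_ ?_
      · intro p hp
        rw [hB, mem_ball] at hp ⊢
        have : nrm (Function.update p i (-(p i))) = nrm p := by
          unfold nrm
          refine Finset.sum_congr rfl fun x _ => ?_
          by_cases hx : x = i
          · subst hx; simp
          · rw [Function.update_of_ne hx]
        rw [this]; exact hp
      · intro p hp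
        rw [hB, mem_ball] at hp ⊢
        have : nrm (Function.update p i (-(p i))) = nrm p := by
          unfold nrm
          refine Finset.sum_congr rfl fun x _ => ?_
          by_cases hx : x = i
          · subst hx; simp
          · rw [Function.update_of_ne hx]
        rw [this]; exact hp
      · intro p _
        simp
      · intro p _
        simp
      · intro p _
        rw [← Finset.sum_neg_distrib]
        refine Finset.sum_congr rfl fun q _ => ?_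
        simp only [hg, Function.update_self, Function.update_of_ne (Ne.symm hij), Prod.fst_neg,
          Prod.snd_neg]
        ring
    rw [Finset.sum_neg_distrib] at h1
    linarith
  have hsum : ∑ p ∈ B, ∑ q ∈ B, ip p q ^ 2 = ∑ i, ∑ p ∈ B, ∑ q ∈ B, g i p q ^ 2 := by
    have h1 : ∀ p q : Fin k → ℤ × ℤ, ip p q ^ 2 = ∑ i, ∑ j, g i p q * g j p q := by
      intro p q
      have : ip p q = ∑ i, g i p q := rfl
      rw [this, sq, Finset.sum_mul_sum]
    calc ∑ p ∈ B, ∑ q ∈ B, ip p q ^ 2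
        = ∑ p ∈ B, ∑ q ∈ B, ∑ i, ∑ j, g i p q * g j p q := by
          refine Finset.sum_congr rfl fun p _ => Finset.sum_congr rfl fun q _ => h1 p q
      _ = ∑ p ∈ B, ∑ i, ∑ q ∈ B, ∑ j, g i p q * g j p q := by
          refine Finset.sum_congr rfl fun p _ => Finset.sum_comm
      _ = ∑ i, ∑ p ∈ B, ∑ q ∈ B, ∑ j, g i p q * g j p q := Finset.sum_comm
      _ = ∑ i, ∑ j, ∑ p ∈ B, ∑ q ∈ B, g i p q * g j p q := by
          refine Finset.sum_congr rfl fun i _ => ?_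
          have e1 : ∑ p ∈ B, ∑ q ∈ B, ∑ j, g i p q * g j p q =
              ∑ p ∈ B, ∑ j, ∑ q ∈ B, g i p q * g j p q :=
            Finset.sum_congr rfl fun p _ => Finset.sum_comm
          rw [e1]
          exact Finset.sum_comm
      _ = ∑ i, ∑ p ∈ B, ∑ q ∈ B, g i p q ^ 2 := by
          refine Finset.sum_congr rfl fun i _ => ?_
          rw [Finset.sum_eq_single i]
          · refine Finset.sum_congr rfl fun p _ => Finset.sum_congr rfl fun q _ => (sq _).symm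
          · intro j _ hj
            exact hoff i j (Ne.symm hj)
          · intro h; exact absurd (Finset.mem_univ _) h
  have hle : ∀ i, ∑ p ∈ B, ∑ q ∈ B, g i p q ^ 2 ≤ W i ^ 2 := by
    intro i
    have : W i ^ 2 = ∑ p ∈ B, ∑ q ∈ B, m i p * m i q := by
      rw [hW, sq, Finset.sum_mul_sum]
    rw [this]
    refine Finset.sum_le_sum fun p _ => Finset.sum_le_sum fun q _ => ?_
    simp only [hg, hm]
    nlinarith [sq_nonneg ((p i).1 * (q i).2 - (p i).2 * (q i).1)]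
  have htot : ∑ p ∈ B, nrm p = ∑ i, W i := by
    rw [hW, Finset.sum_comm]
    rfl
  rw [hsum, htot]
  rcases Nat.eq_zero_or_pos k with hk | hk
  · subst hk
    simp
  · have i0 : Fin k := ⟨0, hk⟩
    have h3 : ∑ i, W i = (k : ℤ) * W i0 := by
      have h31 : ∑ i, W i = ∑ _i : Fin k, W i0 := Finset.sum_congr rfl fun i _ => hWeq i i0
      rw [h31, Finset.sum_const, Finset.card_univ, Fintype.card_fin, nsmul_eq_mul]
    have h4 : ∑ i, ∑ p ∈ B, ∑ q ∈ B, g i p q ^ 2 ≤ (k : ℤ) * W i0 ^ 2 := by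
      calc ∑ i, ∑ p ∈ B, ∑ q ∈ B, g i p q ^ 2 ≤ ∑ i, W i0 ^ 2 :=
            Finset.sum_le_sum fun i _ => (hWeq i i0) ▸ hle i
        _ = (k : ℤ) * W i0 ^ 2 := by
            rw [Finset.sum_const, Finset.card_univ, Fintype.card_fin, nsmul_eq_mul]
    rw [h3]
    have h5 : (0 : ℤ) ≤ k := Int.natCast_nonneg k
    nlinarith [mul_le_mul_of_nonneg_left h4 h5]

theorem good_pairs {k : ℕ} {s δ : ℝ} (hs : 0 < s) (hδ : 0 < δ) (hk : 2 ≤ k * δ ^ 2) :
    ((ball k s).card : ℝ) ^ 2 / 2 ≤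
      (((ball k s ×ˢ ball k s).filter fun z => |(ip z.1 z.2 : ℝ)| ≤ δ * s).card : ℝ) := by
  classical
  set B := ball k s with hB
  set Bad := (B ×ˢ B).filter fun z => ¬ |(ip z.1 z.2 : ℝ)| ≤ δ * s with hBad
  have h1 : ((B ×ˢ B).filter fun z => |(ip z.1 z.2 : ℝ)| ≤ δ * s).card + Bad.card = (B ×ˢ B).card :=
    Finset.card_filter_add_card_filter_not _
  have h2 := second (k := k) (s := s)
  have h3 : (k : ℝ) * ∑ p ∈ B, ∑ q ∈ B, (ip p q : ℝ) ^ 2 ≤ (∑ p ∈ B, (nrm p : ℝ)) ^ 2 := by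
    exact_mod_cast h2
  have h4 : ∑ p ∈ B, (nrm p : ℝ) ≤ B.card * s := by
    calc ∑ p ∈ B, (nrm p : ℝ) ≤ ∑ _p ∈ B, s := Finset.sum_le_sum fun p hp => mem_ball.1 hp
      _ = B.card * s := by rw [Finset.sum_const, nsmul_eq_mul]
  have h4' : 0 ≤ ∑ p ∈ B, (nrm p : ℝ) := by
    refine Finset.sum_nonneg fun p _ => ?_
    have : (0 : ℤ) ≤ nrm p := by
      unfold nrm
      exact Finset.sum_nonneg fun i _ => by positivity
    exact_mod_cast this
  have h5 : (Bad.card : ℝ) * (δ * s) ^ 2 ≤ ∑ p ∈ B, ∑ q ∈ B, (ip p q : ℝ) ^ 2 := by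
    rw [← Finset.sum_product' B B (fun p q => (ip p q : ℝ) ^ 2)]
    calc (Bad.card : ℝ) * (δ * s) ^ 2 = ∑ _z ∈ Bad, (δ * s) ^ 2 := by
          rw [Finset.sum_const, nsmul_eq_mul]
      _ ≤ ∑ z ∈ Bad, (ip z.1 z.2 : ℝ) ^ 2 := by
          refine Finset.sum_le_sum fun z hz => ?_
          have h6 := (Finset.mem_filter.1 hz).2
          rw [not_le] at h6
          rw [← sq_abs (ip z.1 z.2 : ℝ)]
          exact pow_le_pow_left₀ (by positivity) h6.le 2
      _ ≤ ∑ z ∈ B ×ˢ B, (ip z.1 z.2 : ℝ) ^ 2 :=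
          Finset.sum_le_sum_of_subset_of_nonneg (Finset.filter_subset _ _) fun z _ _ => by positivity
  have h7 : (Bad.card : ℝ) * (2 * s ^ 2) ≤ (B.card : ℝ) ^ 2 * s ^ 2 := by
    calc (Bad.card : ℝ) * (2 * s ^ 2) ≤ (Bad.card : ℝ) * ((k * δ ^ 2) * s ^ 2) := by
          refine mul_le_mul_of_nonneg_left ?_ (Nat.cast_nonneg _)
          exact mul_le_mul_of_nonneg_right hk (by positivity)
      _ = (k : ℝ) * ((Bad.card : ℝ) * (δ * s) ^ 2) := by ring
      _ ≤ (k : ℝ) * ∑ p ∈ B, ∑ q ∈ B, (ip p q : ℝ) ^ 2 :=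
          mul_le_mul_of_nonneg_left h5 (Nat.cast_nonneg _)
      _ ≤ (∑ p ∈ B, (nrm p : ℝ)) ^ 2 := h3
      _ ≤ (B.card * s) ^ 2 := pow_le_pow_left₀ h4' h4 2
      _ = (B.card : ℝ) ^ 2 * s ^ 2 := by ring
  have h8 : (Bad.card : ℝ) * 2 ≤ (B.card : ℝ) ^ 2 := by
    have hs2 : 0 < s ^ 2 := by positivity
    have : ((Bad.card : ℝ) * 2) * s ^ 2 ≤ (B.card : ℝ) ^ 2 * s ^ 2 := by linarith
    exact le_of_mul_le_mul_right this hs2
  have h9 : (((B ×ˢ B).filter fun z => |(ip z.1 z.2 : ℝ)| ≤ δ * s).card : ℝ) + Bad.card =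
      (B.card : ℝ) ^ 2 := by
    rw [Finset.card_product] at h1
    have : ((((B ×ˢ B).filter fun z => |(ip z.1 z.2 : ℝ)| ≤ δ * s).card + Bad.card : ℕ) : ℝ) =
      ((B.card * B.card : ℕ) : ℝ) := by rw [h1]
    push_cast at this
    rw [this]; ring
  linarith

/-! ### norms of sums -/

theorem nrm_add_le {k : ℕ} (v e : Fin k → ℤ × ℤ) {η : ℝ} (hη : 0 < η) :
    (nrm (v + e) : ℝ) ≤ (1 + η) * nrm v + (1 + 1 / η) * nrm e := by
  have key : ∀ a b : ℝ, (a + b) ^ 2 ≤ (1 + η) * a ^ 2 + (1 + 1 / η) * b ^ 2 := by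
    intro a b
    have h1 : (1 + η) * a ^ 2 + (1 + 1 / η) * b ^ 2 - (a + b) ^ 2 = (η * a - b) ^ 2 / η := by
      field_simp
      ring
    have h2 : 0 ≤ (η * a - b) ^ 2 / η := by positivity
    linarith
  unfold nrm
  push_cast
  rw [Finset.mul_sum, Finset.mul_sum, ← Finset.sum_add_distrib]
  refine Finset.sum_le_sum fun i _ => ?_
  simp only [Pi.add_apply, Prod.fst_add, Prod.snd_add]
  push_cast
  have h3 := key ((v i).1 : ℝ) ((e i).1 : ℝ)
  have h4 := key ((v i).2 : ℝ) ((e i).2 : ℝ)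
  linarith

theorem nrm_small {k : ℕ} (e : Fin k → ℤ × ℤ) (h : ∀ i, |(e i).1| ≤ 1 ∧ |(e i).2| ≤ 1) :
    nrm e ≤ 2 * k := by
  unfold nrm
  calc ∑ i, ((e i).1 ^ 2 + (e i).2 ^ 2) ≤ ∑ _i : Fin k, (2 : ℤ) := by
        refine Finset.sum_le_sum fun i _ => ?_
        have h1 := sq_le_sq' (neg_le_of_abs_le (h i).1) (le_of_abs_le (h i).1)
        have h2 := sq_le_sq' (neg_le_of_abs_le (h i).2) (le_of_abs_le (h i).2)
        linarith
    _ = 2 * k := by
        rw [Finset.sum_const, Finset.card_univ, Fintype.card_fin, nsmul_eq_mul]; ring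

theorem nrm_add {k : ℕ} (p q : Fin k → ℤ × ℤ) : nrm (p + q) = nrm p + nrm q + 2 * ip p q := by
  unfold nrm ip
  rw [Finset.mul_sum, ← Finset.sum_add_distrib, ← Finset.sum_add_distrib]
  refine Finset.sum_congr rfl fun i _ => ?_
  simp only [Pi.add_apply, Prod.fst_add, Prod.snd_add]
  ring

theorem nrm_sub {k : ℕ} (p q : Fin k → ℤ × ℤ) : nrm (p - q) = nrm p + nrm q - 2 * ip p q := by
  unfold nrm ip
  rw [Finset.mul_sum, ← Finset.sum_add_distrib, ← Finset.sum_sub_distrib]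
  refine Finset.sum_congr rfl fun i _ => ?_
  simp only [Pi.sub_apply, Prod.fst_sub, Prod.snd_sub]
  ring

/-- the norm of `p ± q + e` -/
theorem big_ball {k : ℕ} {s δ η : ℝ} (hη : 0 < η) {p q e : Fin k → ℤ × ℤ}
    (hp : p ∈ ball k s) (hq : q ∈ ball k s) (hpq : |(ip p q : ℝ)| ≤ δ * s)
    (he : ∀ i, |(e i).1| ≤ 1 ∧ |(e i).2| ≤ 1)
    (hs : (1 + 1 / η) * (2 * k) ≤ η * s) :
    p + q + e ∈ ball k (((1 + η) * (2 + 2 * δ) + η) * s) ∧
      p - q + e ∈ ball k (((1 + η) * (2 + 2 * δ) + η) * s) := by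
  rw [mem_ball] at hp hq
  have h1 : (nrm e : ℝ) ≤ 2 * k := by exact_mod_cast nrm_small e he
  have h2 : (1 + 1 / η) * nrm e ≤ η * s :=
    (mul_le_mul_of_nonneg_left h1 (by positivity)).trans hs
  have h3 := abs_le.1 hpq
  constructor
  · rw [mem_ball]
    refine (nrm_add_le _ _ hη).trans ?_
    have h4 : (nrm (p + q) : ℝ) ≤ (2 + 2 * δ) * s := by
      rw [nrm_add]; push_cast; linarith
    have h5 : (1 + η) * (nrm (p + q) : ℝ) ≤ (1 + η) * ((2 + 2 * δ) * s) :=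
      mul_le_mul_of_nonneg_left h4 (by positivity)
    linarith
  · rw [mem_ball]
    refine (nrm_add_le _ _ hη).trans ?_
    have h4 : (nrm (p - q) : ℝ) ≤ (2 + 2 * δ) * s := by
      rw [nrm_sub]; push_cast; linarith
    have h5 : (1 + η) * (nrm (p - q) : ℝ) ≤ (1 + η) * ((2 + 2 * δ) * s) :=
      mul_le_mul_of_nonneg_left h4 (by positivity)
    linarith

/-! ### growth -/

theorem growth {k : ℕ} (hk : 1 ≤ k) {ρ η s0 : ℝ} (hρ : 1 ≤ ρ) (hη : 0 < η) (hs0 : 1 ≤ s0) :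
    ∃ s, s0 ≤ s ∧ ((ball k (ρ * s)).card : ℝ) ≤ (ρ * (1 + η)) ^ k * (ball k s).card := by
  by_contra hcon
  push Not at hcon
  have hρ0 : 0 < ρ := by linarith
  have hstep : ∀ j : ℕ, ((ρ * (1 + η)) ^ k) ^ j ≤ ((ball k (ρ ^ j * s0)).card : ℝ) := by
    intro j
    induction j with
    | zero =>
      rw [pow_zero, pow_zero, one_mul]
      have : 0 < (ball k s0).card := Finset.card_pos.2 ⟨_, zero_mem_ball k (by linarith)⟩
      exact_mod_cast this
    | succ j ih =>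
      have h1 : s0 ≤ ρ ^ j * s0 := by
        have := one_le_pow₀ (n := j) hρ
        nlinarith
      have h2 := hcon (ρ ^ j * s0) h1
      have h3 : ρ * (ρ ^ j * s0) = ρ ^ (j + 1) * s0 := by ring
      rw [h3] at h2
      refine le_trans ?_ h2.le
      rw [pow_succ, mul_comm]
      exact mul_le_mul_of_nonneg_left ih (by positivity)
  obtain ⟨J, hJ⟩ := pow_unbounded_of_one_lt (9 * s0) (show 1 < 1 + η by linarith)
  have h4 := hstep J
  have h5 : 1 ≤ ρ ^ J * s0 := by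
    have := one_le_pow₀ (n := J) hρ
    nlinarith
  have h6 := card_ball_le k h5
  have h7 : ((ρ * (1 + η)) ^ k) ^ J = (ρ ^ J * (1 + η) ^ J) ^ k := by
    rw [← pow_mul, mul_comm k J, pow_mul, mul_pow]
  rw [h7] at h4
  have h8 : (9 * (ρ ^ J * s0)) < ρ ^ J * (1 + η) ^ J := by
    have : 0 < ρ ^ J := by positivity
    nlinarith
  have h9 : (9 * (ρ ^ J * s0)) ^ k < (ρ ^ J * (1 + η) ^ J) ^ k :=
    pow_lt_pow_left₀ h8 (by positivity) (by omega)
  linarith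

end Pool.Agent.H95
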