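import Pool.Agent.Lib.MP_95b053_co.H.Gen

/-!
# MP_95b053_co, upper bound for `h_c`: cells of side `2h` in `(ℤ²)^k`
-/

set_option autoImplicit false

namespace Pool.Agent.H95

open Finset

/-- digits -/
noncomputable def dig (h : ℕ) : Finset (ℤ × ℤ) := Finset.Ico 0 (2 * (h : ℤ)) ×ˢ Finset.Ico 0 (2 * (h : ℤ))

/-- digits with even sum -/
noncomputable def dig' (h : ℕ) : Finset (ℤ × ℤ) := (dig h).filter fun a => (a.1 + a.2) % 2 = 0

/-- pairs of digits with even total sum -/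
noncomputable def dig2 (h : ℕ) : Finset ((ℤ × ℤ) × (ℤ × ℤ)) :=
  (dig h ×ˢ dig h).filter fun w => (w.1.1 + w.1.2 + w.2.1 + w.2.2) % 2 = 0

theorem card_dig (h : ℕ) : (dig h).card = 4 * h ^ 2 := by
  unfold dig
  rw [Finset.card_product, Int.card_Ico]
  have : (2 * (h : ℤ) - 0).toNat = 2 * h := by omega
  rw [this]; ring

/-- the lowest bit is flipped -/
def flip (a : ℤ) : ℤ := if a % 2 = 0 then a + 1 else a - 1

theorem flip_flip (a : ℤ) : flip (flip a) = a := by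
  unfold flip
  split_ifs <;> omega

theorem flip_mod (a : ℤ) : (flip a + a) % 2 = 1 := by
  unfold flip
  split_ifs <;> omega

theorem flip_mem {h : ℕ} {a : ℤ} (ha : a ∈ Finset.Ico 0 (2 * (h : ℤ))) :
    flip a ∈ Finset.Ico 0 (2 * (h : ℤ)) := by
  rw [Finset.mem_Ico] at ha ⊢
  unfold flip
  split_ifs <;> omega

theorem card_dig' (h : ℕ) : (dig' h).card = 2 * h ^ 2 := by
  have h1 : (dig' h).card + ((dig h).filter fun a => ¬ (a.1 + a.2) % 2 = 0).card = (dig h).card :=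
    Finset.card_filter_add_card_filter_not _
  have h2 : (dig' h).card = ((dig h).filter fun a => ¬ (a.1 + a.2) % 2 = 0).card := by
    refine Finset.card_nbij' (fun a => (flip a.1, a.2)) (fun a => (flip a.1, a.2)) ?_ ?_ ?_ ?_
    · intro a ha
      rw [Finset.mem_coe, dig', Finset.mem_filter, dig, Finset.mem_product] at ha
      rw [Finset.mem_coe, Finset.mem_filter, dig, Finset.mem_product]
      refine ⟨⟨flip_mem ha.1.1, ha.1.2⟩, ?_⟩
      have := flip_mod a.1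
      have h3 := ha.2
      show ¬ (flip a.1 + a.2) % 2 = 0
      omega
    · intro a ha
      rw [Finset.mem_coe, Finset.mem_filter, dig, Finset.mem_product] at ha
      rw [Finset.mem_coe, dig', Finset.mem_filter, dig, Finset.mem_product]
      refine ⟨⟨flip_mem ha.1.1, ha.1.2⟩, ?_⟩
      have := flip_mod a.1
      have h3 := ha.2
      show (flip a.1 + a.2) % 2 = 0
      omega
    · intro a _
      simp [flip_flip]
    · intro a _
      simp [flip_flip]
  rw [card_dig] at h1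
  omega

theorem card_dig2 (h : ℕ) : (dig2 h).card = 8 * h ^ 4 := by
  have h1 : (dig2 h).card +
      ((dig h ×ˢ dig h).filter fun w => ¬ (w.1.1 + w.1.2 + w.2.1 + w.2.2) % 2 = 0).card =
        (dig h ×ˢ dig h).card :=
    Finset.card_filter_add_card_filter_not _
  have h2 : (dig2 h).card =
      ((dig h ×ˢ dig h).filter fun w => ¬ (w.1.1 + w.1.2 + w.2.1 + w.2.2) % 2 = 0).card := by
    refine Finset.card_nbij' (fun a => ((flip a.1.1, a.1.2), a.2))
      (fun a => ((flip a.1.1, a.1.2), a.2)) ?_ ?_ ?_ ?_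
    · intro a ha
      rw [Finset.mem_coe, dig2, Finset.mem_filter, Finset.mem_product, dig, Finset.mem_product,
        Finset.mem_product] at ha
      rw [Finset.mem_coe, Finset.mem_filter, Finset.mem_product, dig, Finset.mem_product,
        Finset.mem_product]
      refine ⟨⟨⟨flip_mem ha.1.1.1, ha.1.1.2⟩, ha.1.2⟩, ?_⟩
      have := flip_mod a.1.1
      have h3 := ha.2
      show ¬ (flip a.1.1 + a.1.2 + a.2.1 + a.2.2) % 2 = 0
      omega
    · intro a ha
      rw [Finset.mem_coe, Finset.mem_filter, Finset.mem_product, dig, Finset.mem_product,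
        Finset.mem_product] at ha
      rw [Finset.mem_coe, dig2, Finset.mem_filter, Finset.mem_product, dig, Finset.mem_product,
        Finset.mem_product]
      refine ⟨⟨⟨flip_mem ha.1.1.1, ha.1.1.2⟩, ha.1.2⟩, ?_⟩
      have := flip_mod a.1.1
      have h3 := ha.2
      show (flip a.1.1 + a.1.2 + a.2.1 + a.2.2) % 2 = 0
      omega
    · intro a _
      simp [flip_flip]
    · intro a _
      simp [flip_flip]
  rw [Finset.card_product, card_dig] at h1
  have h3 : 4 * h ^ 2 * (4 * h ^ 2) = 16 * h ^ 4 := by ring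
  omega

/-- the vector with cell `p` and digits `u` -/
def mk {k : ℕ} (h : ℕ) (p u : Fin k → ℤ × ℤ) : Fin k → ℤ × ℤ :=
  fun i => (2 * (h : ℤ) * (p i).1 + (u i).1, 2 * (h : ℤ) * (p i).2 + (u i).2)

theorem dm {m p u p' u' : ℤ} (hu : 0 ≤ u ∧ u < m) (hu' : 0 ≤ u' ∧ u' < m)
    (h : m * p + u = m * p' + u') : p = p' ∧ u = u' := by
  have h1 : (m * p + u) / m = p := by
    rw [Int.mul_add_ediv_left _ _ (by omega), Int.ediv_eq_zero_of_lt hu.1 hu.2, add_zero]
  have h2 : (m * p' + u') / m = p' := by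
    rw [Int.mul_add_ediv_left _ _ (by omega), Int.ediv_eq_zero_of_lt hu'.1 hu'.2, add_zero]
  have h3 : p = p' := by rw [← h1, ← h2, h]
  subst h3
  exact ⟨rfl, by linarith⟩

theorem mk_inj {k h : ℕ} {p u p' u' : Fin k → ℤ × ℤ} (hu : ∀ i, u i ∈ dig h)
    (hu' : ∀ i, u' i ∈ dig h) (he : mk h p u = mk h p' u') : p = p' ∧ u = u' := by
  have key : ∀ i, p i = p' i ∧ u i = u' i := by
    intro i
    have h1 := hu i
    have h2 := hu' i
    rw [dig, Finset.mem_product, Finset.mem_Ico, Finset.mem_Ico] at h1 h2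
    have h3 := congrFun he i
    simp only [mk, Prod.mk.injEq] at h3
    obtain ⟨a1, a2⟩ := dm h1.1 h2.1 h3.1
    obtain ⟨b1, b2⟩ := dm h1.2 h2.2 h3.2
    exact ⟨Prod.ext a1 b1, Prod.ext a2 b2⟩
  exact ⟨funext fun i => (key i).1, funext fun i => (key i).2⟩

/-- the points with cell in `B` and digits in `D` -/
def pts {k : ℕ} (h : ℕ) (B : Finset (Fin k → ℤ × ℤ)) (D : Finset (ℤ × ℤ)) :
    Finset (Fin k → ℤ × ℤ) :=
  (B ×ˢ Fintype.piFinset fun _ : Fin k => D).image fun z => mk h z.1 z.2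

theorem card_pts_le {k : ℕ} (h : ℕ) (B : Finset (Fin k → ℤ × ℤ)) (D : Finset (ℤ × ℤ)) :
    (pts h B D).card ≤ B.card * D.card ^ k := by
  unfold pts
  refine Finset.card_image_le.trans ?_
  rw [Finset.card_product, Fintype.card_piFinset, Finset.prod_const, Finset.card_univ,
    Fintype.card_fin]

theorem mem_pts {k h : ℕ} {B : Finset (Fin k → ℤ × ℤ)} {D : Finset (ℤ × ℤ)} {p u : Fin k → ℤ × ℤ}
    (hp : p ∈ B) (hu : ∀ i, u i ∈ D) : mk h p u ∈ pts h B D := by
  unfold pts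
  rw [Finset.mem_image]
  exact ⟨(p, u), Finset.mem_product.2 ⟨hp, Fintype.mem_piFinset.2 hu⟩, rfl⟩

/-- embedding of the class with factor `c` and label `t` -/
def emb {k : ℕ} (c t : ℤ) (x : Fin k → ℤ × ℤ) : Option (Fin k × Bool) → ℤ
  | none => t
  | some (i, b) => c * (if b then (x i).2 else (x i).1)

theorem emb_inj {k : ℕ} {c t : ℤ} (hc : c ≠ 0) {x y : Fin k → ℤ × ℤ} (h : emb c t x = emb c t y) :
    x = y := by
  funext i
  have h1 := congrFun h (some (i, false))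
  have h2 := congrFun h (some (i, true))
  simp only [emb, Bool.false_eq_true, if_false, if_true] at h1 h2
  exact Prod.ext (mul_left_cancel₀ hc h1) (mul_left_cancel₀ hc h2)

theorem emb_bound {k h N : ℕ} (hh : 1 ≤ h) {B : Finset (Fin k → ℤ × ℤ)} {D : Finset (ℤ × ℤ)}
    (hD : D ⊆ dig h)
    (hB : ∀ p ∈ B, ∀ i, |(p i).1| ≤ (N : ℤ) ∧ |(p i).2| ≤ (N : ℤ)) {c t : ℤ} (hc : 0 ≤ c ∧ c ≤ 6)
    (ht : 0 ≤ t ∧ t ≤ 6) {u : Option (Fin k × Bool) → ℤ}
    (hu : u ∈ (pts h B D).image (emb c t)) (o : Option (Fin k × Bool)) :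
    |u o| ≤ ((12 * h * (N + 1) : ℕ) : ℤ) := by
  obtain ⟨x, hx, rfl⟩ := Finset.mem_image.1 hu
  unfold pts at hx
  obtain ⟨⟨p, v⟩, hz, rfl⟩ := Finset.mem_image.1 hx
  rw [Finset.mem_product] at hz
  have hp : p ∈ B := hz.1
  have hv : ∀ i, v i ∈ dig h := fun i => hD (Fintype.mem_piFinset.1 hz.2 i)
  have hh' : (1 : ℤ) ≤ h := by exact_mod_cast hh
  have hN : (0 : ℤ) ≤ N := Int.natCast_nonneg N
  push_cast
  rcases o with _ | ⟨i, b⟩
  · show |t| ≤ 12 * (h : ℤ) * (N + 1)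
    rw [abs_of_nonneg ht.1]
    nlinarith [ht.2, mul_nonneg (by linarith : (0 : ℤ) ≤ h) hN]
  · have hb : ∀ a e : ℤ, |a| ≤ (N : ℤ) → 0 ≤ e → e < 2 * (h : ℤ) →
        |c * (2 * (h : ℤ) * a + e)| ≤ 12 * (h : ℤ) * (N + 1) := by
      intro a e ha he0 he1
      have h1 : |2 * (h : ℤ) * a + e| ≤ 2 * (h : ℤ) * (N + 1) := by
        have h2 := abs_le.1 ha
        rw [abs_le]
        constructor <;> nlinarith
      rw [abs_mul, abs_of_nonneg hc.1]
      calc c * |2 * (h : ℤ) * a + e| ≤ 6 * (2 * (h : ℤ) * (N + 1)) :=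
            mul_le_mul hc.2 h1 (abs_nonneg _) (by norm_num)
        _ = 12 * (h : ℤ) * (N + 1) := by ring
    have h3 := hv i
    rw [dig, Finset.mem_product, Finset.mem_Ico, Finset.mem_Ico] at h3
    have h4 := hB p hp i
    cases b
    · show |c * (2 * (h : ℤ) * (p i).1 + (v i).1)| ≤ _
      exact hb _ _ h4.1 h3.1.1 h3.1.2
    · show |c * (2 * (h : ℤ) * (p i).2 + (v i).2)| ≤ _
      exact hb _ _ h4.2 h3.2.1 h3.2.2

/-- the sum and the difference of two vectors with congruent digits -/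
theorem sum_mem {k h : ℕ} (hh : 1 ≤ h) {B' : Finset (Fin k → ℤ × ℤ)} {p q : Fin k → ℤ × ℤ}
    {w : Fin k → (ℤ × ℤ) × (ℤ × ℤ)} (hw : ∀ i, w i ∈ dig2 h)
    (hbig : ∀ e : Fin k → ℤ × ℤ, (∀ i, |(e i).1| ≤ 1 ∧ |(e i).2| ≤ 1) →
      p + q + e ∈ B' ∧ p - q + e ∈ B') :
    mk h p (fun i => (w i).1) + mk h q (fun i => (w i).2) ∈ pts h B' (dig' h) ∧
      mk h p (fun i => (w i).1) - mk h q (fun i => (w i).2) ∈ pts h B' (dig' h) := by
  have hh' : (1 : ℤ) ≤ h := by exact_mod_cast hh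
  have hwi : ∀ i, (0 ≤ (w i).1.1 ∧ (w i).1.1 < 2 * (h : ℤ)) ∧ (0 ≤ (w i).1.2 ∧ (w i).1.2 < 2 * (h : ℤ)) ∧
      (0 ≤ (w i).2.1 ∧ (w i).2.1 < 2 * (h : ℤ)) ∧ (0 ≤ (w i).2.2 ∧ (w i).2.2 < 2 * (h : ℤ)) ∧
      ((w i).1.1 + (w i).1.2 + (w i).2.1 + (w i).2.2) % 2 = 0 := by
    intro i
    have h1 := hw i
    rw [dig2, Finset.mem_filter, Finset.mem_product, dig, Finset.mem_product, Finset.mem_product,
      Finset.mem_Ico, Finset.mem_Ico, Finset.mem_Ico, Finset.mem_Ico] at h1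
    exact ⟨h1.1.1.1, h1.1.1.2, h1.1.2.1, h1.1.2.2, h1.2⟩
  -- carry of a number in (-2h, 4h)
  have carry : ∀ a : ℤ, -(2 * (h : ℤ)) < a → a < 4 * (h : ℤ) → |a / (2 * (h : ℤ))| ≤ 1 ∧
      0 ≤ a % (2 * (h : ℤ)) ∧ a % (2 * (h : ℤ)) < 2 * (h : ℤ) ∧
      2 * (h : ℤ) * (a / (2 * (h : ℤ))) + a % (2 * (h : ℤ)) = a := by
    intro a ha1 ha2
    have hpos : (0 : ℤ) < 2 * (h : ℤ) := by linarith
    refine ⟨?_, Int.emod_nonneg _ hpos.ne', Int.emod_lt_of_pos _ hpos, Int.mul_ediv_add_emod _ _⟩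
    rw [abs_le]
    constructor
    · rw [Int.le_ediv_iff_mul_le hpos]; linarith
    · have : a / (2 * (h : ℤ)) < 2 := by
        rw [Int.ediv_lt_iff_lt_mul hpos]; linarith
      linarith
  -- parity
  have par : ∀ a b : ℤ, (a + b) % 2 = 0 → (a % (2 * (h : ℤ)) + b % (2 * (h : ℤ))) % 2 = 0 := by
    intro a b hab
    have h1 := Int.mul_ediv_add_emod a (2 * (h : ℤ))
    have h2 := Int.mul_ediv_add_emod b (2 * (h : ℤ))
    have h3 : a % (2 * (h : ℤ)) + b % (2 * (h : ℤ)) =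
        (a + b) - 2 * ((h : ℤ) * (a / (2 * (h : ℤ))) + (h : ℤ) * (b / (2 * (h : ℤ)))) := by
      linear_combination h1 + h2
    rw [h3]
    omega
  constructor
  · have e1 : mk h p (fun i => (w i).1) + mk h q (fun i => (w i).2) =
        mk h (p + q + fun i => (((w i).1.1 + (w i).2.1) / (2 * (h : ℤ)),
          ((w i).1.2 + (w i).2.2) / (2 * (h : ℤ))))
          (fun i => (((w i).1.1 + (w i).2.1) % (2 * (h : ℤ)),
            ((w i).1.2 + (w i).2.2) % (2 * (h : ℤ)))) := by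
      funext i
      have h1 := Int.mul_ediv_add_emod ((w i).1.1 + (w i).2.1) (2 * (h : ℤ))
      have h2 := Int.mul_ediv_add_emod ((w i).1.2 + (w i).2.2) (2 * (h : ℤ))
      simp only [mk, Pi.add_apply, Prod.mk_add_mk, Prod.fst_add, Prod.snd_add, Prod.mk.injEq]
      constructor
      · linear_combination -h1
      · linear_combination -h2
    rw [e1]
    refine mem_pts (hbig _ ?_).1 ?_
    · intro i
      obtain ⟨a1, a2, a3, a4, _⟩ := hwi i
      exact ⟨(carry _ (by linarith [a1.1, a3.1]) (by linarith [a1.2, a3.2])).1,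
        (carry _ (by linarith [a2.1, a4.1]) (by linarith [a2.2, a4.2])).1⟩
    · intro i
      obtain ⟨a1, a2, a3, a4, a5⟩ := hwi i
      obtain ⟨_, b1, b2, _⟩ := carry ((w i).1.1 + (w i).2.1) (by linarith [a1.1, a3.1])
        (by linarith [a1.2, a3.2])
      obtain ⟨_, b3, b4, _⟩ := carry ((w i).1.2 + (w i).2.2) (by linarith [a2.1, a4.1])
        (by linarith [a2.2, a4.2])
      rw [dig', Finset.mem_filter, dig, Finset.mem_product, Finset.mem_Ico, Finset.mem_Ico]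
      refine ⟨⟨⟨b1, b2⟩, ⟨b3, b4⟩⟩, ?_⟩
      refine par _ _ ?_
      omega
  · have e1 : mk h p (fun i => (w i).1) - mk h q (fun i => (w i).2) =
        mk h (p - q + fun i => (((w i).1.1 - (w i).2.1) / (2 * (h : ℤ)),
          ((w i).1.2 - (w i).2.2) / (2 * (h : ℤ))))
          (fun i => (((w i).1.1 - (w i).2.1) % (2 * (h : ℤ)),
            ((w i).1.2 - (w i).2.2) % (2 * (h : ℤ)))) := by
      funext i
      have h1 := Int.mul_ediv_add_emod ((w i).1.1 - (w i).2.1) (2 * (h : ℤ))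
      have h2 := Int.mul_ediv_add_emod ((w i).1.2 - (w i).2.2) (2 * (h : ℤ))
      simp only [mk, Pi.sub_apply, Pi.add_apply, Prod.mk_sub_mk, Prod.fst_add, Prod.snd_add,
        Prod.fst_sub, Prod.snd_sub, Prod.mk.injEq]
      constructor
      · linear_combination -h1
      · linear_combination -h2
    rw [e1]
    refine mem_pts (hbig _ ?_).2 ?_
    · intro i
      obtain ⟨a1, a2, a3, a4, _⟩ := hwi i
      exact ⟨(carry _ (by linarith [a1.1, a3.2]) (by linarith [a1.2, a3.1])).1,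
        (carry _ (by linarith [a2.1, a4.2]) (by linarith [a2.2, a4.1])).1⟩
    · intro i
      obtain ⟨a1, a2, a3, a4, a5⟩ := hwi i
      obtain ⟨_, b1, b2, _⟩ := carry ((w i).1.1 - (w i).2.1) (by linarith [a1.1, a3.2])
        (by linarith [a1.2, a3.1])
      obtain ⟨_, b3, b4, _⟩ := carry ((w i).1.2 - (w i).2.2) (by linarith [a2.1, a4.2])
        (by linarith [a2.2, a4.1])
      rw [dig', Finset.mem_filter, dig, Finset.mem_product, Finset.mem_Ico, Finset.mem_Ico]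
      refine ⟨⟨⟨b1, b2⟩, ⟨b3, b4⟩⟩, ?_⟩
      refine par _ _ ?_
      omega

end Pool.Agent.H95
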