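import Pool.Agent.Lib.MP_95b053_co.H.Gen

/-!
# MP_95b053_co, upper bound for `h_c`: from integer vectors to points of the plane
-/

set_option autoImplicit false

namespace Pool.Agent.H95

open Finset

theorem line_eq (L : AffineSubspace ℝ (ℝ × ℝ)) (h : Module.finrank ℝ L.direction = 1)
    (p q : ℝ × ℝ) (hp : p ∈ L) (hq : q ∈ L) (hne : p ≠ q) : affineSpan ℝ {p, q} = L := by
  have hle : affineSpan ℝ ({p, q} : Set (ℝ × ℝ)) ≤ L := by
    rw [affineSpan_le]
    rintro x (rfl | rfl)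
    · exact hp
    · exact hq
  have hdir : (affineSpan ℝ ({p, q} : Set (ℝ × ℝ))).direction = L.direction := by
    refine Submodule.eq_of_le_of_finrank_eq (AffineSubspace.direction_le hle) ?_
    rw [h, direction_affineSpan, vectorSpan_pair, finrank_span_singleton]
    rw [vsub_eq_sub]
    exact sub_ne_zero.2 hne
  exact AffineSubspace.eq_of_direction_eq_of_nonempty_of_le hdir
    ⟨p, left_mem_affineSpan_pair ℝ p q⟩ hle

theorem line_rank (p q : ℝ × ℝ) (hne : p ≠ q) :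
    Module.finrank ℝ (affineSpan ℝ ({p, q} : Set (ℝ × ℝ))).direction = 1 := by
  rw [direction_affineSpan, vectorSpan_pair, finrank_span_singleton]
  rw [vsub_eq_sub]
  exact sub_ne_zero.2 hne

theorem on_line (L : AffineSubspace ℝ (ℝ × ℝ)) (h : Module.finrank ℝ L.direction = 1)
    (a b c : ℝ × ℝ) (ha : a ∈ L) (hb : b ∈ L) (hc : c ∈ L) :
    (b.1 - a.1) * (c.2 - a.2) = (c.1 - a.1) * (b.2 - a.2) := by
  obtain ⟨v, _, hv⟩ := finrank_eq_one_iff'.1 h
  have hb' : b -ᵥ a ∈ L.direction := AffineSubspace.vsub_mem_direction hb ha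
  have hc' : c -ᵥ a ∈ L.direction := AffineSubspace.vsub_mem_direction hc ha
  obtain ⟨s, hs⟩ := hv ⟨b -ᵥ a, hb'⟩
  obtain ⟨t, ht⟩ := hv ⟨c -ᵥ a, hc'⟩
  have hs1 : s • (v : ℝ × ℝ) = b - a := by
    have := congrArg Subtype.val hs
    simpa using this
  have ht1 : t • (v : ℝ × ℝ) = c - a := by
    have := congrArg Subtype.val ht
    simpa using this
  have e1 := congrArg Prod.fst hs1
  have e2 := congrArg Prod.snd hs1
  have e3 := congrArg Prod.fst ht1
  have e4 := congrArg Prod.snd ht1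
  simp only [Prod.smul_fst, Prod.smul_snd, Prod.fst_sub, Prod.snd_sub, smul_eq_mul] at e1 e2 e3 e4
  rw [← e1, ← e2, ← e3, ← e4]
  ring

theorem rich_finite (P : Finset (ℝ × ℝ)) :
    {L : AffineSubspace ℝ (ℝ × ℝ) | Module.finrank ℝ L.direction = 1 ∧
      4 ≤ ((P : Set (ℝ × ℝ)) ∩ (L : Set (ℝ × ℝ))).ncard}.Finite := by
  classical
  refine Set.Finite.subset (s := (((P ×ˢ P).image fun z : (ℝ × ℝ) × (ℝ × ℝ) =>
    affineSpan ℝ ({z.1, z.2} : Set (ℝ × ℝ)) : Finset (AffineSubspace ℝ (ℝ × ℝ))) :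
      Set (AffineSubspace ℝ (ℝ × ℝ)))) (Finset.finite_toSet _) ?_
  rintro L ⟨hL, h4⟩
  have hfin : ((P : Set (ℝ × ℝ)) ∩ (L : Set (ℝ × ℝ))).Finite :=
    (Finset.finite_toSet P).subset Set.inter_subset_left
  have h1 : 1 < ((P : Set (ℝ × ℝ)) ∩ (L : Set (ℝ × ℝ))).ncard := by omega
  obtain ⟨a, b, ha, hb, hab⟩ := (Set.one_lt_ncard_iff hfin).1 h1
  rw [Finset.mem_coe, Finset.mem_image]
  exact ⟨(a, b), Finset.mem_product.2 ⟨ha.1, hb.1⟩, line_eq L hL a b ha.2 hb.2 hab⟩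

theorem parabola (L : AffineSubspace ℝ (ℝ × ℝ)) (h : Module.finrank ℝ L.direction = 1)
    (Q : Finset (ℝ × ℝ)) (hQ : ∀ q ∈ Q, q.2 = q.1 ^ 2) :
    ((Q : Set (ℝ × ℝ)) ∩ (L : Set (ℝ × ℝ))).ncard ≤ 2 := by
  have hfin : ((Q : Set (ℝ × ℝ)) ∩ (L : Set (ℝ × ℝ))).Finite :=
    (Finset.finite_toSet Q).subset Set.inter_subset_left
  by_contra hcon
  have h2 : 2 < ((Q : Set (ℝ × ℝ)) ∩ (L : Set (ℝ × ℝ))).ncard := by omega
  obtain ⟨a, b, c, ha, hb, hc, hab, hac, hbc⟩ := (Set.two_lt_ncard_iff hfin).1 h2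
  have e := on_line L h a b c ha.2 hb.2 hc.2
  rw [hQ a ha.1, hQ b hb.1, hQ c hc.1] at e
  have e2 : (b.1 - a.1) * ((c.1 - a.1) * (c.1 - b.1)) = 0 := by linear_combination e
  have hne : ∀ x y : ℝ × ℝ, x ∈ Q → y ∈ Q → x ≠ y → y.1 - x.1 ≠ 0 := by
    intro x y hx hy hxy h0
    apply hxy
    have h3 : x.1 = y.1 := by linarith
    refine Prod.ext h3 ?_
    rw [hQ x hx, hQ y hy, h3]
  rcases mul_eq_zero.1 e2 with h3 | h3
  · exact hne a b ha.1 hb.1 hab h3
  · rcases mul_eq_zero.1 h3 with h4 | h4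
    · exact hne a c ha.1 hc.1 hac h4
    · exact hne b c hb.1 hc.1 hbc h4

theorem geo {κ : Type} [Fintype κ] [DecidableEq κ] (S : Finset (κ → ℤ)) (R : ℕ)
    (hR : ∀ u ∈ S, ∀ i, |u i| ≤ (R : ℤ)) (Fam : Finset ((κ → ℤ) × (κ → ℤ)))
    (h1 : ∀ z ∈ Fam, z.1 ∈ S ∧ z.2 ∈ S ∧ z.1 ≠ z.2 ∧
      ∃ T ⊆ S, 4 ≤ T.card ∧ ∀ r ∈ T, Col z.1 z.2 r)
    (h2 : ∀ z ∈ Fam, ∀ z' ∈ Fam, Col z.1 z.2 z'.1 → Col z.1 z.2 z'.2 → z = z')
    (n : ℕ) (hn : S.card ≤ n) :
    ∃ P : Finset (ℝ × ℝ), P.card = n ∧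
      Fam.card ≤ {L : AffineSubspace ℝ (ℝ × ℝ) | Module.finrank ℝ L.direction = 1 ∧
        4 ≤ ((P : Set (ℝ × ℝ)) ∩ (L : Set (ℝ × ℝ))).ncard}.ncard ∧
      ∀ L : AffineSubspace ℝ (ℝ × ℝ), Module.finrank ℝ L.direction = 1 →
        ((P : Set (ℝ × ℝ)) ∩ (L : Set (ℝ × ℝ))).ncard ≤ 2 * R + 3 := by
  classical
  obtain ⟨F, G, hF, hFG⟩ := generic κ
  set Φ : (κ → ℤ) → ℝ × ℝ := fun u => (F u, G u) with hΦ
  have hinj : Function.Injective Φ := by
    intro u v h
    have h3 : F u = F v := congrArg Prod.fst h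
    have h4 : F (u - v) = 0 := by rw [map_sub, h3, sub_self]
    exact sub_eq_zero.1 (hF _ h4)
  -- collinear images come from collinear vectors
  have hcol : ∀ (L : AffineSubspace ℝ (ℝ × ℝ)), Module.finrank ℝ L.direction = 1 →
      ∀ u v w : κ → ℤ, Φ u ∈ L → Φ v ∈ L → Φ w ∈ L → Col u v w := by
    intro L hL u v w hu hv hw
    have e := on_line L hL _ _ _ hu hv hw
    have e' : F (v - u) * G (w - u) = F (w - u) * G (v - u) := by
      simp only [map_sub]
      exact e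
    intro i j
    have := hFG _ _ e' i j
    simpa using this
  -- collinear vectors have collinear images
  have hcol' : ∀ u v w : κ → ℤ, u ≠ v → Col u v w →
      Φ w ∈ affineSpan ℝ ({Φ u, Φ v} : Set (ℝ × ℝ)) := by
    intro u v w huv hc
    obtain ⟨i, hi⟩ : ∃ i, v i ≠ u i := by
      by_contra hcon
      push Not at hcon
      exact huv (funext fun i => (hcon i).symm)
    have hi' : ((v i - u i : ℤ) : ℝ) ≠ 0 := by
      exact_mod_cast sub_ne_zero.2 hi
    have hvec : (v i - u i) • (w - u) = (w i - u i) • (v - u) := by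
      funext j
      have := hc i j
      simpa [smul_eq_mul] using this
    have hFe : ((v i - u i : ℤ) : ℝ) * F (w - u) = ((w i - u i : ℤ) : ℝ) * F (v - u) := by
      have := congrArg F hvec
      rw [map_zsmul, map_zsmul, zsmul_eq_mul, zsmul_eq_mul] at this
      exact this
    have hGe : ((v i - u i : ℤ) : ℝ) * G (w - u) = ((w i - u i : ℤ) : ℝ) * G (v - u) := by
      have := congrArg G hvec
      rw [map_zsmul, map_zsmul, zsmul_eq_mul, zsmul_eq_mul] at this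
      exact this
    rw [map_sub, map_sub] at hFe hGe
    set t : ℝ := ((w i - u i : ℤ) : ℝ) / ((v i - u i : ℤ) : ℝ) with ht
    have h5 : Φ w = AffineMap.lineMap (Φ u) (Φ v) t := by
      rw [AffineMap.lineMap_apply]
      refine Prod.ext ?_ ?_
      · show F w = t * (F v - F u) + F u
        rw [ht]
        field_simp
        linear_combination hFe
      · show G w = t * (G v - G u) + G u
        rw [ht]
        field_simp
        linear_combination hGe
    rw [h5]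
    exact AffineMap.lineMap_mem_affineSpan_pair t _ _
  -- the extra points
  have hinf : ({q : ℝ × ℝ | q.2 = q.1 ^ 2} \ (S.image Φ : Finset (ℝ × ℝ))).Infinite := by
    refine Set.Infinite.sdiff ?_ (Finset.finite_toSet _)
    have h6 : (Set.range fun t : ℝ => ((t, t ^ 2) : ℝ × ℝ)) ⊆ {q : ℝ × ℝ | q.2 = q.1 ^ 2} := by
      rintro _ ⟨t, rfl⟩
      rfl
    refine Set.Infinite.mono h6 (Set.infinite_range_of_injective ?_)
    intro s t h
    exact congrArg Prod.fst h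
  obtain ⟨Q, hQ1, hQ2⟩ := hinf.exists_subset_card_eq (n - S.card)
  have hQp : ∀ q ∈ Q, q.2 = q.1 ^ 2 := fun q hq => (hQ1 hq).1
  have hdisj : Disjoint (S.image Φ) Q := by
    rw [Finset.disjoint_left]
    intro x hx hq
    exact (hQ1 hq).2 (Finset.mem_coe.2 hx)
  have hcardS : (S.image Φ).card = S.card := Finset.card_image_of_injective _ hinj
  refine ⟨S.image Φ ∪ Q, ?_, ?_, ?_⟩
  · rw [Finset.card_union_of_disjoint hdisj, hcardS, hQ2]
    omega
  · -- rich lines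
    have hmaps : ∀ z ∈ Fam, affineSpan ℝ ({Φ z.1, Φ z.2} : Set (ℝ × ℝ)) ∈
        {L : AffineSubspace ℝ (ℝ × ℝ) | Module.finrank ℝ L.direction = 1 ∧
          4 ≤ (((S.image Φ ∪ Q : Finset (ℝ × ℝ)) : Set (ℝ × ℝ)) ∩ (L : Set (ℝ × ℝ))).ncard} := by
      intro z hz
      obtain ⟨hz1, hz2, hne, T, hT, hT4, hTc⟩ := h1 z hz
      refine ⟨line_rank _ _ fun h => hne (hinj h), ?_⟩
      have h7 : ((T.image Φ : Finset (ℝ × ℝ)) : Set (ℝ × ℝ)) ⊆
          ((S.image Φ ∪ Q : Finset (ℝ × ℝ)) : Set (ℝ × ℝ)) ∩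
            ((affineSpan ℝ ({Φ z.1, Φ z.2} : Set (ℝ × ℝ)) : AffineSubspace ℝ (ℝ × ℝ)) :
              Set (ℝ × ℝ)) := by
        intro x hx
        obtain ⟨r, hr, rfl⟩ := Finset.mem_image.1 (Finset.mem_coe.1 hx)
        refine ⟨?_, hcol' _ _ _ hne (hTc r hr)⟩
        rw [Finset.mem_coe, Finset.mem_union]
        exact Or.inl (Finset.mem_image_of_mem _ (hT hr))
      have h8 := Set.ncard_le_ncard h7 ((Finset.finite_toSet _).subset Set.inter_subset_left)
      rw [Set.ncard_coe_finset, Finset.card_image_of_injective _ hinj] at h8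
      exact hT4.trans h8
    have hinjF : Set.InjOn (fun z : (κ → ℤ) × (κ → ℤ) =>
        affineSpan ℝ ({Φ z.1, Φ z.2} : Set (ℝ × ℝ))) (Fam : Set ((κ → ℤ) × (κ → ℤ))) := by
      intro z hz z' hz' he
      have he' : affineSpan ℝ ({Φ z.1, Φ z.2} : Set (ℝ × ℝ)) =
        affineSpan ℝ ({Φ z'.1, Φ z'.2} : Set (ℝ × ℝ)) := he
      have hr := (hmaps z hz).1
      have m1 : Φ z.1 ∈ affineSpan ℝ ({Φ z.1, Φ z.2} : Set (ℝ × ℝ)) := left_mem_affineSpan_pair ℝ _ _
      have m2 : Φ z.2 ∈ affineSpan ℝ ({Φ z.1, Φ z.2} : Set (ℝ × ℝ)) := right_mem_affineSpan_pair ℝ _ _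
      have m3 : Φ z'.1 ∈ affineSpan ℝ ({Φ z.1, Φ z.2} : Set (ℝ × ℝ)) := by
        rw [he']; exact left_mem_affineSpan_pair ℝ _ _
      have m4 : Φ z'.2 ∈ affineSpan ℝ ({Φ z.1, Φ z.2} : Set (ℝ × ℝ)) := by
        rw [he']; exact right_mem_affineSpan_pair ℝ _ _
      exact h2 z hz z' hz' (hcol _ hr _ _ _ m1 m2 m3) (hcol _ hr _ _ _ m1 m2 m4)
    rw [← Finset.card_image_of_injOn hinjF, ← Set.ncard_coe_finset]
    refine Set.ncard_le_ncard ?_ (rich_finite _)
    intro L hL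
    obtain ⟨z, hz, rfl⟩ := Finset.mem_image.1 (Finset.mem_coe.1 hL)
    exact hmaps z hz
  · -- no line with many points
    intro L hL
    have h9 : (((S.image Φ ∪ Q : Finset (ℝ × ℝ)) : Set (ℝ × ℝ)) ∩ (L : Set (ℝ × ℝ))) =
        (((S.image Φ : Finset (ℝ × ℝ)) : Set (ℝ × ℝ)) ∩ (L : Set (ℝ × ℝ))) ∪
          ((Q : Set (ℝ × ℝ)) ∩ (L : Set (ℝ × ℝ))) := by
      rw [Finset.coe_union, Set.union_inter_distrib_right]
    have h10 := parabola L hL Q hQp
    have h11 : (((S.image Φ : Finset (ℝ × ℝ)) : Set (ℝ × ℝ)) ∩ (L : Set (ℝ × ℝ))) =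
        (((S.filter fun u => Φ u ∈ L).image Φ : Finset (ℝ × ℝ)) : Set (ℝ × ℝ)) := by
      ext x
      simp only [Set.mem_inter_iff, Finset.mem_coe, Finset.mem_image, Finset.mem_filter,
        SetLike.mem_coe]
      constructor
      · rintro ⟨⟨u, hu, rfl⟩, hx⟩
        exact ⟨u, ⟨hu, hx⟩, rfl⟩
      · rintro ⟨u, ⟨hu, hx⟩, rfl⟩
        exact ⟨⟨u, hu, rfl⟩, hx⟩
    have h12 : (S.filter fun u => Φ u ∈ L).card ≤ 2 * R + 1 := by
      by_cases h13 : (S.filter fun u => Φ u ∈ L).card ≤ 1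
      · omega
      · obtain ⟨u, v, hu, hv, huv⟩ := Finset.one_lt_card_iff.1 (not_le.1 h13)
        rw [Finset.mem_filter] at hu hv
        obtain ⟨i, hi⟩ : ∃ i, v i ≠ u i := by
          by_contra hcon
          push Not at hcon
          exact huv (funext fun i => (hcon i).symm)
        have h14 : (S.filter fun u => Φ u ∈ L).card ≤ (Finset.Icc (-(R : ℤ)) (R : ℤ)).card := by
          refine Finset.card_le_card_of_injOn (fun w => w i) ?_ ?_
          · intro w hw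
            rw [Finset.mem_coe, Finset.mem_filter] at hw
            rw [Finset.mem_coe, Finset.mem_Icc]
            exact abs_le.1 (hR w hw.1 i)
          · intro w hw w' hw' he
            rw [Finset.mem_coe, Finset.mem_filter] at hw hw'
            have c1 := hcol L hL u v w hu.2 hv.2 hw.2
            have c2 := hcol L hL u v w' hu.2 hv.2 hw'.2
            funext j
            have d1 := c1 i j
            have d2 := c2 i j
            have he' : w i = w' i := he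
            rw [he'] at d1
            have d3 : (v i - u i) * (w j - w' j) = 0 := by linear_combination d1 - d2
            rcases mul_eq_zero.1 d3 with d4 | d4
            · exact absurd (sub_eq_zero.1 d4) hi
            · exact sub_eq_zero.1 d4
        rw [Int.card_Icc] at h14
        omega
    rw [h9]
    refine (Set.ncard_union_le _ _).trans ?_
    rw [h11, Set.ncard_coe_finset, Finset.card_image_of_injective _ hinj]
    omega

end Pool.Agent.H95
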