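import Pool.Agent.Lib.MP_95b053_co.H.Cell
import Pool.Agent.Lib.MP_95b053_co.H.Geo

/-!
# MP_95b053_co, upper bound for `h_c`: the planar sets
-/

set_option autoImplicit false

namespace Pool.Agent.H95

open Finset

theorem col_of_smul {κ : Type} {u v w : κ → ℤ} (a b : ℤ) (ha : a ≠ 0)
    (h : ∀ i, a * (w i - u i) = b * (v i - u i)) : Col u v w := by
  intro i j
  have h1 := h i
  have h2 := h j
  have h3 : a * ((v i - u i) * (w j - u j)) = a * ((w i - u i) * (v j - u j)) := by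
    linear_combination (v i - u i) * h2 - (v j - u j) * h1
  exact mul_left_cancel₀ ha h3

theorem fam {k h N : ℕ} (hh : 1 ≤ h) (B B' : Finset (Fin k → ℤ × ℤ))
    (Good : Finset ((Fin k → ℤ × ℤ) × (Fin k → ℤ × ℤ))) (hG : Good ⊆ B ×ˢ B)
    (hbig : ∀ z ∈ Good, ∀ e : Fin k → ℤ × ℤ, (∀ i, |(e i).1| ≤ 1 ∧ |(e i).2| ≤ 1) →
      z.1 + z.2 + e ∈ B' ∧ z.1 - z.2 + e ∈ B')
    (hB : ∀ p ∈ B, ∀ i, |(p i).1| ≤ (N : ℤ) ∧ |(p i).2| ≤ (N : ℤ))
    (hB' : ∀ p ∈ B', ∀ i, |(p i).1| ≤ (N : ℤ) ∧ |(p i).2| ≤ (N : ℤ))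
    (n : ℕ) (hn : 2 * (B.card * (4 * h ^ 2) ^ k) + 2 * (B'.card * (2 * h ^ 2) ^ k) ≤ n) :
    ∃ P : Finset (ℝ × ℝ), P.card = n ∧
      Good.card * (8 * h ^ 4) ^ k ≤
        {L : AffineSubspace ℝ (ℝ × ℝ) | Module.finrank ℝ L.direction = 1 ∧
          4 ≤ ((P : Set (ℝ × ℝ)) ∩ (L : Set (ℝ × ℝ))).ncard}.ncard ∧
      ∀ L : AffineSubspace ℝ (ℝ × ℝ), Module.finrank ℝ L.direction = 1 →
        ((P : Set (ℝ × ℝ)) ∩ (L : Set (ℝ × ℝ))).ncard ≤ 2 * (12 * h * (N + 1)) + 3 := by
  classical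
  set A := pts h B (dig h) with hA
  set A' := pts h B' (dig' h) with hA'
  set S : Finset (Option (Fin k × Bool) → ℤ) :=
    (A.image (emb 3 3) ∪ A.image (emb 6 0)) ∪ (A'.image (emb 2 2) ∪ A'.image (emb 6 6)) with hS
  have hScard : S.card ≤ 2 * (B.card * (4 * h ^ 2) ^ k) + 2 * (B'.card * (2 * h ^ 2) ^ k) := by
    have c1 : A.card ≤ B.card * (4 * h ^ 2) ^ k := by
      have := card_pts_le h B (dig h)
      rwa [card_dig] at this
    have c2 : A'.card ≤ B'.card * (2 * h ^ 2) ^ k := by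
      have := card_pts_le h B' (dig' h)
      rwa [card_dig'] at this
    have d1 : (A.image (emb 3 3)).card ≤ A.card := Finset.card_image_le
    have d2 : (A.image (emb 6 0)).card ≤ A.card := Finset.card_image_le
    have d3 : (A'.image (emb 2 2)).card ≤ A'.card := Finset.card_image_le
    have d4 : (A'.image (emb 6 6)).card ≤ A'.card := Finset.card_image_le
    have e1 := Finset.card_union_le (A.image (emb 3 3) ∪ A.image (emb 6 0))
      (A'.image (emb 2 2) ∪ A'.image (emb 6 6))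
    have e2 := Finset.card_union_le (A.image (emb 3 3)) (A.image (emb 6 0))
    have e3 := Finset.card_union_le (A'.image (emb 2 2)) (A'.image (emb 6 6))
    rw [hS]
    omega
  set X : ((Fin k → ℤ × ℤ) × (Fin k → ℤ × ℤ)) × (Fin k → (ℤ × ℤ) × (ℤ × ℤ)) → (Fin k → ℤ × ℤ) :=
    fun z => mk h z.1.1 (fun i => (z.2 i).1) with hX
  set Y : ((Fin k → ℤ × ℤ) × (Fin k → ℤ × ℤ)) × (Fin k → (ℤ × ℤ) × (ℤ × ℤ)) → (Fin k → ℤ × ℤ) :=
    fun z => mk h z.1.2 (fun i => (z.2 i).2) with hY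
  set I : Finset (((Fin k → ℤ × ℤ) × (Fin k → ℤ × ℤ)) × (Fin k → (ℤ × ℤ) × (ℤ × ℤ))) :=
    Good ×ˢ Fintype.piFinset fun _ : Fin k => dig2 h with hI
  set f : ((Fin k → ℤ × ℤ) × (Fin k → ℤ × ℤ)) × (Fin k → (ℤ × ℤ) × (ℤ × ℤ)) →
      (Option (Fin k × Bool) → ℤ) × (Option (Fin k × Bool) → ℤ) :=
    fun z => (emb 6 0 (Y z), emb 3 3 (X z)) with hf
  have hdig : ∀ w : Fin k → (ℤ × ℤ) × (ℤ × ℤ), w ∈ (Fintype.piFinset fun _ : Fin k => dig2 h) →
      (∀ i, w i ∈ dig2 h) ∧ (∀ i, (w i).1 ∈ dig h) ∧ (∀ i, (w i).2 ∈ dig h) := by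
    intro w hw
    have h1 : ∀ i, w i ∈ dig2 h := Fintype.mem_piFinset.1 hw
    refine ⟨h1, fun i => ?_, fun i => ?_⟩
    · exact (Finset.mem_product.1 (Finset.mem_filter.1 (h1 i)).1).1
    · exact (Finset.mem_product.1 (Finset.mem_filter.1 (h1 i)).1).2
  have hfinj : Set.InjOn f (I : Set _) := by
    intro z hz z' hz' he
    rw [Finset.mem_coe, hI, Finset.mem_product] at hz hz'
    obtain ⟨_, a1, a2⟩ := hdig _ hz.2
    obtain ⟨_, b1, b2⟩ := hdig _ hz'.2
    have e1 : Y z = Y z' := emb_inj (by norm_num) (congrArg Prod.fst he)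
    have e2 : X z = X z' := emb_inj (by norm_num) (congrArg Prod.snd he)
    obtain ⟨c1, c2⟩ := mk_inj (u := fun i => (z.2 i).2) (u' := fun i => (z'.2 i).2) a2 b2 e1
    obtain ⟨c3, c4⟩ := mk_inj (u := fun i => (z.2 i).1) (u' := fun i => (z'.2 i).1) a1 b1 e2
    refine Prod.ext (Prod.ext c3 c1) (funext fun i => Prod.ext ?_ ?_)
    · exact congrFun c4 i
    · exact congrFun c2 i
  have hFcard : (I.image f).card = Good.card * (8 * h ^ 4) ^ k := by
    rw [Finset.card_image_of_injOn hfinj, hI, Finset.card_product, Fintype.card_piFinset,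
      Finset.prod_const, Finset.card_univ, Fintype.card_fin, card_dig2]
  have hmem : ∀ z ∈ I, X z ∈ A ∧ Y z ∈ A ∧ X z + Y z ∈ A' ∧ X z - Y z ∈ A' := by
    intro z hz
    rw [hI, Finset.mem_product] at hz
    obtain ⟨a0, a1, a2⟩ := hdig _ hz.2
    have hg := Finset.mem_product.1 (hG hz.1)
    have hs := sum_mem hh a0 (hbig z.1 hz.1)
    exact ⟨mem_pts hg.1 a1, mem_pts hg.2 a2, hs.1, hs.2⟩
  have hbd : ∀ u ∈ S, ∀ o, |u o| ≤ ((12 * h * (N + 1) : ℕ) : ℤ) := by
    intro u hu o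
    rw [hS, Finset.mem_union, Finset.mem_union, Finset.mem_union] at hu
    rcases hu with (hu | hu) | (hu | hu)
    · exact emb_bound hh (le_refl _) hB (by norm_num) (by norm_num) hu o
    · exact emb_bound hh (le_refl _) hB (by norm_num) (by norm_num) hu o
    · exact emb_bound hh (Finset.filter_subset _ _) hB' (by norm_num) (by norm_num) hu o
    · exact emb_bound hh (Finset.filter_subset _ _) hB' (by norm_num) (by norm_num) hu o
  have hfour : ∀ z ∈ I.image f, z.1 ∈ S ∧ z.2 ∈ S ∧ z.1 ≠ z.2 ∧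
      ∃ T ⊆ S, 4 ≤ T.card ∧ ∀ r ∈ T, Col z.1 z.2 r := by
    intro z hz
    obtain ⟨y, hy, rfl⟩ := Finset.mem_image.1 hz
    obtain ⟨m1, m2, m3, m4⟩ := hmem y hy
    have s1 : emb 6 0 (Y y) ∈ S := by
      rw [hS]
      exact Finset.mem_union_left _ (Finset.mem_union_right _ (Finset.mem_image_of_mem _ m2))
    have s2 : emb 3 3 (X y) ∈ S := by
      rw [hS]
      exact Finset.mem_union_left _ (Finset.mem_union_left _ (Finset.mem_image_of_mem _ m1))
    have s3 : emb 2 2 (X y + Y y) ∈ S := by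
      rw [hS]
      exact Finset.mem_union_right _ (Finset.mem_union_left _ (Finset.mem_image_of_mem _ m3))
    have s4 : emb 6 6 (X y - Y y) ∈ S := by
      rw [hS]
      exact Finset.mem_union_right _ (Finset.mem_union_right _ (Finset.mem_image_of_mem _ m4))
    have n1 : emb 6 0 (Y y) ≠ emb 3 3 (X y) := by
      intro h0; have := congrFun h0 none; simp [emb] at this
    have n2 : emb 6 0 (Y y) ≠ emb 2 2 (X y + Y y) := by
      intro h0; have := congrFun h0 none; simp [emb] at this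
    have n3 : emb 6 0 (Y y) ≠ emb 6 6 (X y - Y y) := by
      intro h0; have := congrFun h0 none; simp [emb] at this
    have n4 : emb 3 3 (X y) ≠ emb 2 2 (X y + Y y) := by
      intro h0; have := congrFun h0 none; simp [emb] at this
    have n5 : emb 3 3 (X y) ≠ emb 6 6 (X y - Y y) := by
      intro h0; have := congrFun h0 none; simp [emb] at this
    have n6 : emb 2 2 (X y + Y y) ≠ emb 6 6 (X y - Y y) := by
      intro h0; have := congrFun h0 none; simp [emb] at this
    refine ⟨s1, s2, n1, {emb 6 0 (Y y), emb 3 3 (X y), emb 2 2 (X y + Y y), emb 6 6 (X y - Y y)},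
      ?_, ?_, ?_⟩
    · intro r hr
      simp only [Finset.mem_insert, Finset.mem_singleton] at hr
      rcases hr with rfl | rfl | rfl | rfl
      · exact s1
      · exact s2
      · exact s3
      · exact s4
    · rw [Finset.card_insert_of_notMem, Finset.card_insert_of_notMem, Finset.card_insert_of_notMem,
        Finset.card_singleton]
      · simp [n6]
      · simp [n4, n5]
      · simp [n1, n2, n3]
    · intro r hr
      simp only [Finset.mem_insert, Finset.mem_singleton] at hr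
      rcases hr with rfl | rfl | rfl | rfl
      · intro i j; show _ = _; ring
      · intro i j; show _ = _; ring
      · refine col_of_smul 3 2 (by norm_num) ?_
        rintro (_ | ⟨i, b⟩)
        · show (3 : ℤ) * (2 - 0) = 2 * (3 - 0); norm_num
        · cases b
          · show 3 * (2 * ((X y i).1 + (Y y i).1) - 6 * (Y y i).1) =
              2 * (3 * (X y i).1 - 6 * (Y y i).1)
            ring
          · show 3 * (2 * ((X y i).2 + (Y y i).2) - 6 * (Y y i).2) =
              2 * (3 * (X y i).2 - 6 * (Y y i).2)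
            ring
      · refine col_of_smul 1 2 (by norm_num) ?_
        rintro (_ | ⟨i, b⟩)
        · show (1 : ℤ) * (6 - 0) = 2 * (3 - 0); norm_num
        · cases b
          · show 1 * (6 * ((X y i).1 - (Y y i).1) - 6 * (Y y i).1) =
              2 * (3 * (X y i).1 - 6 * (Y y i).1)
            ring
          · show 1 * (6 * ((X y i).2 - (Y y i).2) - 6 * (Y y i).2) =
              2 * (3 * (X y i).2 - 6 * (Y y i).2)
            ring
  have hdiff : ∀ z ∈ I.image f, ∀ z' ∈ I.image f, Col z.1 z.2 z'.1 → Col z.1 z.2 z'.2 → z = z' := by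
    intro z hz z' hz' c1 c2
    obtain ⟨y, hy, rfl⟩ := Finset.mem_image.1 hz
    obtain ⟨y', hy', rfl⟩ := Finset.mem_image.1 hz'
    refine Prod.ext ?_ ?_
    · funext j
      have := c1 none j
      have e : ((3 : ℤ) - 0) * (emb 6 0 (Y y') j - emb 6 0 (Y y) j) =
          (0 - 0) * (emb 3 3 (X y) j - emb 6 0 (Y y) j) := this
      show emb 6 0 (Y y) j = emb 6 0 (Y y') j
      linarith
    · funext j
      have := c2 none j
      have e : ((3 : ℤ) - 0) * (emb 3 3 (X y') j - emb 6 0 (Y y) j) =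
          (3 - 0) * (emb 3 3 (X y) j - emb 6 0 (Y y) j) := this
      show emb 3 3 (X y) j = emb 3 3 (X y') j
      linarith
  obtain ⟨P, hP1, hP2, hP3⟩ := geo S (12 * h * (N + 1)) hbd (I.image f) hfour hdiff n
    (hScard.trans hn)
  exact ⟨P, hP1, hFcard ▸ hP2, hP3⟩

end Pool.Agent.H95
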