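import Mathlib

/-!
# MP_95b053_co, upper bound for `h_c`: a generic map from `ℤ^κ` to the plane

The map `u ↦ (∑ u_i θ^(e i), ∑ u_i θ^(N e i))`, `θ` transcendental, is injective and maps linearly
independent vectors to linearly independent vectors.
-/

set_option autoImplicit false

namespace Pool.Agent.H95

open Finset Polynomial

/-- Three integer vectors are on a line. -/
def Col {κ : Type} (u v w : κ → ℤ) : Prop :=
  ∀ i j, (v i - u i) * (w j - u j) = (w i - u i) * (v j - u j)

theorem exp_inj {N a b a' b' : ℕ} (ha : a < N) (ha' : a' < N) (h : a + N * b = a' + N * b') :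
    a = a' ∧ b = b' := by
  have h1 : (a + N * b) % N = a := by
    rw [Nat.add_mul_mod_self_left]; exact Nat.mod_eq_of_lt ha
  have h2 : (a' + N * b') % N = a' := by
    rw [Nat.add_mul_mod_self_left]; exact Nat.mod_eq_of_lt ha'
  have h3 : a = a' := by rw [← h1, ← h2, h]
  subst h3
  have hN : 0 < N := lt_of_le_of_lt (Nat.zero_le _) ha
  have h4 : N * b = N * b' := by omega
  exact ⟨rfl, Nat.eq_of_mul_eq_mul_left hN h4⟩

theorem generic (κ : Type) [Fintype κ] [DecidableEq κ] :
    ∃ F G : (κ → ℤ) →+ ℝ, (∀ u, F u = 0 → u = 0) ∧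
      ∀ u w : κ → ℤ, F u * G w = F w * G u → ∀ i j, u i * w j = w i * u j := by
  classical
  obtain ⟨θ, hθ⟩ : ∃ θ : ℝ, Transcendental ℤ θ :=
    ⟨_, transcendental_liouvilleNumber (m := 2) le_rfl⟩
  set N := Fintype.card κ with hN
  set e : κ → ℕ := fun i => (Fintype.equivFin κ i : ℕ) with he
  have he1 : ∀ i, e i < N := fun i => (Fintype.equivFin κ i).2
  have he2 : ∀ i j, e i = e j → i = j := by
    intro i j h
    exact (Fintype.equivFin κ).injective (Fin.ext h)
  have hne : ∀ Q : ℤ[X], aeval θ Q = 0 → Q = 0 := by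
    intro Q hQ
    by_contra h
    exact hθ ⟨Q, h, hQ⟩
  let F : (κ → ℤ) →+ ℝ :=
    { toFun := fun u => ∑ i, (u i : ℝ) * θ ^ (e i)
      map_zero' := by simp
      map_add' := by
        intro u v
        rw [← Finset.sum_add_distrib]
        refine Finset.sum_congr rfl fun i _ => ?_
        rw [Pi.add_apply]; push_cast; ring }
  let G : (κ → ℤ) →+ ℝ :=
    { toFun := fun u => ∑ i, (u i : ℝ) * θ ^ (N * e i)
      map_zero' := by simp
      map_add' := by
        intro u v
        rw [← Finset.sum_add_distrib]
        refine Finset.sum_congr rfl fun i _ => ?_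
        rw [Pi.add_apply]; push_cast; ring }
  have hF : ∀ u, F u = ∑ i, (u i : ℝ) * θ ^ (e i) := fun u => rfl
  have hG : ∀ u, G u = ∑ i, (u i : ℝ) * θ ^ (N * e i) := fun u => rfl
  refine ⟨F, G, ?_, ?_⟩
  · intro u hu
    have h1 : aeval θ (∑ i, C (u i) * X ^ (e i) : ℤ[X]) = 0 := by
      rw [map_sum]
      rw [hF] at hu
      rw [← hu]
      refine Finset.sum_congr rfl fun i _ => ?_
      simp
    have h2 := hne _ h1
    funext j
    have h3 := congrArg (fun Q : ℤ[X] => Q.coeff (e j)) h2
    simp only [Polynomial.finsetSum_coeff, Polynomial.coeff_C_mul, Polynomial.coeff_X_pow,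
      Polynomial.coeff_zero] at h3
    rw [Finset.sum_eq_single j] at h3
    · simpa using h3
    · intro i _ hij
      have : e j ≠ e i := fun h => hij (he2 _ _ h).symm
      simp [this]
    · intro h; exact absurd (Finset.mem_univ _) h
  · intro u w h i0 j0
    have h1 : aeval θ (∑ i, ∑ j, C (u i * w j - w i * u j) * X ^ (e i + N * e j) : ℤ[X]) = 0 := by
      have h2 : aeval θ (∑ i, ∑ j, C (u i * w j - w i * u j) * X ^ (e i + N * e j) : ℤ[X]) =
          F u * G w - F w * G u := by
        rw [hF, hG, hF, hG, Finset.sum_mul_sum, Finset.sum_mul_sum, ← Finset.sum_sub_distrib,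
          map_sum]
        refine Finset.sum_congr rfl fun i _ => ?_
        rw [← Finset.sum_sub_distrib, map_sum]
        refine Finset.sum_congr rfl fun j _ => ?_
        rw [map_mul, aeval_C, map_pow, aeval_X, algebraMap_int_eq, eq_intCast]
        push_cast
        rw [pow_add]
        ring
      rw [h2, h, sub_self]
    have h2 := hne _ h1
    have h3 := congrArg (fun Q : ℤ[X] => Q.coeff (e i0 + N * e j0)) h2
    simp only [Polynomial.finsetSum_coeff, Polynomial.coeff_C_mul, Polynomial.coeff_X_pow,
      Polynomial.coeff_zero] at h3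
    rw [Finset.sum_eq_single i0, Finset.sum_eq_single j0] at h3
    · simp only [if_true, mul_one] at h3
      linarith
    · intro j _ hj
      have : ¬ (e i0 + N * e j0 = e i0 + N * e j) := by
        intro h5
        exact hj (he2 _ _ (exp_inj (he1 _) (he1 _) h5).2).symm
      rw [if_neg this, mul_zero]
    · intro h5; exact absurd (Finset.mem_univ _) h5
    · intro i _ hi
      refine Finset.sum_eq_zero fun j _ => ?_
      have : ¬ (e i0 + N * e j0 = e i + N * e j) := by
        intro h5
        exact hi (he2 _ _ (exp_inj (he1 _) (he1 _) h5).1).symm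
      rw [if_neg this, mul_zero]
    · intro h5; exact absurd (Finset.mem_univ _) h5

end Pool.Agent.H95
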