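import Pool.Agent.Lib.MP_95b053_co.H.Ball
import Pool.Agent.Lib.MP_95b053_co.H.Fam

/-!
# MP_95b053_co, upper bound for `h_c`: the numbers
-/

set_option autoImplicit false

namespace Pool.Agent.H95

open Finset

theorem exp_half : Real.exp (1 / 2) ≤ 2 := by
  have h1 : Real.exp (1 / 2) ^ 2 ≤ 2 ^ 2 := by
    rw [← Real.exp_nat_mul]
    have h2 : ((2 : ℕ) : ℝ) * (1 / 2) = 1 := by norm_num
    rw [h2]
    have := Real.exp_one_lt_d9
    linarith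
  exact le_of_sq_le_sq h1 (by norm_num)

theorem succ_pow_le {k h : ℕ} (hh : 1 ≤ h) (h1 : 8 * k ≤ h) :
    ((h : ℝ) + 1) ^ (4 * k) ≤ 2 * (h : ℝ) ^ (4 * k) := by
  have hpos : (0 : ℝ) < h := by exact_mod_cast hh
  have h2 : (h : ℝ) + 1 = (1 / h + 1) * h := by
    rw [add_mul, one_div, inv_mul_cancel₀ hpos.ne']; ring
  have h3 : (1 / (h : ℝ) + 1) ^ (4 * k) ≤ 2 := by
    calc (1 / (h : ℝ) + 1) ^ (4 * k) ≤ Real.exp (1 / h) ^ (4 * k) :=
          pow_le_pow_left₀ (by positivity) (Real.add_one_le_exp _) _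
      _ = Real.exp ((4 * k : ℕ) * (1 / h)) := (Real.exp_nat_mul _ _).symm
      _ ≤ Real.exp (1 / 2) := by
          rw [Real.exp_le_exp]
          push_cast
          rw [mul_one_div, div_le_div_iff₀ hpos (by norm_num)]
          have : (8 * k : ℝ) ≤ h := by exact_mod_cast h1
          linarith
      _ ≤ 2 := exp_half
  rw [h2, mul_pow]
  exact mul_le_mul_of_nonneg_right h3 (by positivity)

theorem tau_sq {η ε : ℝ} (hη : 0 < η) (hε : ε ≤ 1) (h : 18 * η = ε) :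
    ((((1 + η) * (2 + 2 * η) + η) * (1 + η)) / 2) ^ 2 ≤ 1 + ε / 2 := by
  have h1 : η ≤ 1 / 18 := by linarith
  have h2 : (((1 + η) * (2 + 2 * η) + η) * (1 + η)) / 2 ≤ 1 + 4 * η := by
    nlinarith [mul_pos hη hη, mul_pos (mul_pos hη hη) hη]
  have h3 : 0 ≤ (((1 + η) * (2 + 2 * η) + η) * (1 + η)) / 2 := by positivity
  calc ((((1 + η) * (2 + 2 * η) + η) * (1 + η)) / 2) ^ 2 ≤ (1 + 4 * η) ^ 2 :=
        pow_le_pow_left₀ h3 h2 2
    _ ≤ 1 + ε / 2 := by nlinarith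

theorem find_h (K n k : ℕ) (hK : 1 ≤ K) (hk : 1 ≤ k) :
    ∃ h, K * h ^ (2 * k) ≤ n ∧ n < K * (h + 1) ^ (2 * k) := by
  classical
  refine ⟨Nat.findGreatest (fun h => K * h ^ (2 * k) ≤ n) n, ?_, ?_⟩
  · have h0 : K * 0 ^ (2 * k) ≤ n := by
      rw [zero_pow (by omega)]; simp
    exact Nat.findGreatest_spec (P := fun h => K * h ^ (2 * k) ≤ n) (Nat.zero_le n) h0
  · by_contra hcon
    rw [not_lt] at hcon
    set g := Nat.findGreatest (fun h => K * h ^ (2 * k) ≤ n) n with hg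
    have h1 : g + 1 ≤ n := by
      have h2 : g + 1 ≤ (g + 1) ^ (2 * k) := Nat.le_self_pow (by omega) _
      have h3 : (g + 1) ^ (2 * k) ≤ K * (g + 1) ^ (2 * k) := Nat.le_mul_of_pos_left _ hK
      omega
    have h4 := Nat.le_findGreatest (P := fun h => K * h ^ (2 * k) ≤ n) h1 hcon
    rw [← hg] at h4
    omega

theorem mainK (ε : ℝ) (hε : 0 < ε) (hε1 : ε ≤ 1) :
    ∃ k0 : ℕ, ∀ k : ℕ, k0 ≤ k → ∃ C : ℝ, 0 ≤ C ∧ ∃ N0 : ℕ, ∀ n : ℕ, N0 ≤ n →
      ∃ P : Finset (ℝ × ℝ), P.card = n ∧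
        ((2 * (1 + ε)) ^ k)⁻¹ * (n : ℝ) ^ 2 ≤
          ({L : AffineSubspace ℝ (ℝ × ℝ) | Module.finrank ℝ L.direction = 1 ∧
            4 ≤ ((P : Set (ℝ × ℝ)) ∩ (L : Set (ℝ × ℝ))).ncard}.ncard : ℝ) ∧
        ∀ L : AffineSubspace ℝ (ℝ × ℝ), Module.finrank ℝ L.direction = 1 →
          ((((P : Set (ℝ × ℝ)) ∩ (L : Set (ℝ × ℝ))).ncard : ℕ) : ℝ) ≤
            C * (n : ℝ) ^ (1 / (2 * (k : ℝ))) := by
  classical
  set η : ℝ := ε / 18 with hηdef
  have hη : 0 < η := by positivity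
  have hη18 : 18 * η = ε := by rw [hηdef]; ring
  set ρ : ℝ := (1 + η) * (2 + 2 * η) + η with hρdef
  have hρ2 : 2 ≤ ρ := by rw [hρdef]; nlinarith
  set τ : ℝ := (ρ * (1 + η)) / 2 with hτdef
  have hτ1 : 1 ≤ τ := by rw [hτdef]; nlinarith
  have hτ2 : τ ^ 2 ≤ 1 + ε / 2 := tau_sq hη hε1 hη18
  -- k large
  obtain ⟨k1, hk1⟩ := pow_unbounded_of_one_lt (64 : ℝ)
    (show 1 < (1 + ε) / (1 + ε / 2) by rw [one_lt_div (by positivity)]; linarith)
  obtain ⟨k2, hk2⟩ := exists_nat_gt (2 / η ^ 2)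
  refine ⟨max (max k1 k2) 1, fun k hk => ?_⟩
  have hkk1 : k1 ≤ k := le_trans (le_trans (le_max_left _ _) (le_max_left _ _)) hk
  have hkk2 : k2 ≤ k := le_trans (le_trans (le_max_right _ _) (le_max_left _ _)) hk
  have hk1' : 1 ≤ k := le_trans (le_max_right _ _) hk
  have hkη : 2 ≤ (k : ℝ) * η ^ 2 := by
    have h1 : 2 / η ^ 2 ≤ (k : ℝ) := hk2.le.trans (by exact_mod_cast hkk2)
    rwa [div_le_iff₀ (by positivity)] at h1
  have h64 : 64 * (τ ^ 2) ^ k ≤ (1 + ε) ^ k := by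
    have h1 : (64 : ℝ) ≤ ((1 + ε) / (1 + ε / 2)) ^ k :=
      hk1.le.trans (pow_le_pow_right₀ (by rw [one_le_div (by positivity)]; linarith) hkk1)
    have h2 : (τ ^ 2) ^ k ≤ (1 + ε / 2) ^ k := pow_le_pow_left₀ (by positivity) hτ2 k
    calc 64 * (τ ^ 2) ^ k ≤ ((1 + ε) / (1 + ε / 2)) ^ k * (1 + ε / 2) ^ k :=
          mul_le_mul h1 h2 (by positivity) (by positivity)
      _ = (1 + ε) ^ k := by
          rw [← mul_pow, div_mul_cancel₀ _ (by positivity)]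
  -- the radius
  obtain ⟨s, hs0, hs⟩ := growth (k := k) hk1' (ρ := ρ) (η := η)
    (s0 := max 1 ((1 + 1 / η) * (2 * k) / η)) (by linarith) hη (le_max_left _ _)
  have hs1 : 1 ≤ s := le_trans (le_max_left _ _) hs0
  have hs2 : (1 + 1 / η) * (2 * k) ≤ η * s := by
    have h1 : (1 + 1 / η) * (2 * k) / η ≤ s := le_trans (le_max_right _ _) hs0
    rw [div_le_iff₀ hη] at h1
    linarith
  set B := ball k s with hBdef
  set B' := ball k (ρ * s) with hB'def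
  set Good := (B ×ˢ B).filter fun z => |(ip z.1 z.2 : ℝ)| ≤ η * s with hGdef
  have hGood : (B.card : ℝ) ^ 2 / 2 ≤ (Good.card : ℝ) := good_pairs (by linarith) hη hkη
  have hBpos : 1 ≤ B.card := Finset.card_pos.2 ⟨_, zero_mem_ball k (by linarith)⟩
  have hBposR : (1 : ℝ) ≤ B.card := by exact_mod_cast hBpos
  set Nc : ℕ := ⌊Real.sqrt s⌋₊ + ⌊Real.sqrt (ρ * s)⌋₊ with hNc
  set K : ℕ := 2 * (B.card * 4 ^ k) + 2 * (B'.card * 2 ^ k) with hKdef
  have hK1 : 1 ≤ K := by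
    have : 0 < B.card * 4 ^ k := Nat.mul_pos hBpos (by positivity)
    omega
  -- upper bound for K
  have hKle : (K : ℝ) ≤ 4 * B.card * (4 ^ k * τ ^ k) := by
    have h1 : (B'.card : ℝ) ≤ (2 * τ) ^ k * B.card := by
      have : 2 * τ = ρ * (1 + η) := by rw [hτdef]; ring
      rw [this]; exact hs
    have h2 : (1 : ℝ) ≤ τ ^ k := one_le_pow₀ hτ1
    have h3 : (B'.card : ℝ) * 2 ^ k ≤ B.card * (4 ^ k * τ ^ k) := by
      calc (B'.card : ℝ) * 2 ^ k ≤ ((2 * τ) ^ k * B.card) * 2 ^ k :=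
            mul_le_mul_of_nonneg_right h1 (by positivity)
        _ = B.card * (4 ^ k * τ ^ k) := by
            have : (4 : ℝ) ^ k = 2 ^ k * 2 ^ k := by rw [← mul_pow]; norm_num
            rw [this, mul_pow]; ring
    have h4 : (B.card : ℝ) * 4 ^ k ≤ B.card * (4 ^ k * τ ^ k) := by
      refine mul_le_mul_of_nonneg_left ?_ (by positivity)
      have : (0 : ℝ) < 4 ^ k := by positivity
      nlinarith
    rw [hKdef]
    push_cast
    linarith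
  refine ⟨24 * (Nc + 1) + 3, by positivity, K * (8 * k) ^ (2 * k) + 1, fun n hn => ?_⟩
  obtain ⟨h, hh1, hh2⟩ := find_h K n k hK1 hk1'
  have hh8 : 8 * k ≤ h := by
    by_contra hcon
    rw [not_le] at hcon
    have h1 : (h + 1) ^ (2 * k) ≤ (8 * k) ^ (2 * k) := Nat.pow_le_pow_left (by omega) _
    have h2 : K * (h + 1) ^ (2 * k) ≤ K * (8 * k) ^ (2 * k) := Nat.mul_le_mul_left K h1
    omega
  have hh : 1 ≤ h := by omega
  have hn' : 2 * (B.card * (4 * h ^ 2) ^ k) + 2 * (B'.card * (2 * h ^ 2) ^ k) ≤ n := by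
    have h1 : K * h ^ (2 * k) = 2 * (B.card * (4 * h ^ 2) ^ k) + 2 * (B'.card * (2 * h ^ 2) ^ k) := by
      rw [hKdef, mul_pow, mul_pow, pow_mul h 2 k]
      ring
    omega
  have hbig : ∀ z ∈ Good, ∀ e : Fin k → ℤ × ℤ, (∀ i, |(e i).1| ≤ 1 ∧ |(e i).2| ≤ 1) →
      z.1 + z.2 + e ∈ B' ∧ z.1 - z.2 + e ∈ B' := by
    intro z hz e he
    rw [hGdef, Finset.mem_filter, Finset.mem_product] at hz
    exact big_ball hη hz.1.1 hz.1.2 hz.2 he hs2
  have hBc : ∀ p ∈ B, ∀ i, |(p i).1| ≤ (Nc : ℤ) ∧ |(p i).2| ≤ (Nc : ℤ) := by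
    intro p hp i
    have := ball_coord hp i
    rw [hNc]; push_cast
    constructor
    · linarith [this.1, Int.natCast_nonneg ⌊Real.sqrt (ρ * s)⌋₊]
    · linarith [this.2, Int.natCast_nonneg ⌊Real.sqrt (ρ * s)⌋₊]
  have hBc' : ∀ p ∈ B', ∀ i, |(p i).1| ≤ (Nc : ℤ) ∧ |(p i).2| ≤ (Nc : ℤ) := by
    intro p hp i
    have := ball_coord hp i
    rw [hNc]; push_cast
    constructor
    · linarith [this.1, Int.natCast_nonneg ⌊Real.sqrt s⌋₊]
    · linarith [this.2, Int.natCast_nonneg ⌊Real.sqrt s⌋₊]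
  obtain ⟨P, hP1, hP2, hP3⟩ := fam hh B B' Good (Finset.filter_subset _ _) hbig hBc hBc' n hn'
  refine ⟨P, hP1, ?_, ?_⟩
  · refine le_trans ?_ (show ((Good.card * (8 * h ^ 4) ^ k : ℕ) : ℝ) ≤ _ by exact_mod_cast hP2)
    push_cast
    have hhpos : (0 : ℝ) < h := by exact_mod_cast hh
    have e1 : (n : ℝ) ≤ K * ((h : ℝ) + 1) ^ (2 * k) := by exact_mod_cast hh2.le
    have e2 : (n : ℝ) ^ 2 ≤ (K : ℝ) ^ 2 * (2 * (h : ℝ) ^ (4 * k)) := by
      calc (n : ℝ) ^ 2 ≤ (K * ((h : ℝ) + 1) ^ (2 * k)) ^ 2 :=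
            pow_le_pow_left₀ (Nat.cast_nonneg _) e1 2
        _ = (K : ℝ) ^ 2 * ((h : ℝ) + 1) ^ (4 * k) := by
            rw [mul_pow, ← pow_mul]; congr 2; ring
        _ ≤ (K : ℝ) ^ 2 * (2 * (h : ℝ) ^ (4 * k)) :=
            mul_le_mul_of_nonneg_left (succ_pow_le hh hh8) (by positivity)
    have e3 : (K : ℝ) ^ 2 ≤ 16 * (B.card : ℝ) ^ 2 * (16 ^ k * (τ ^ 2) ^ k) := by
      calc (K : ℝ) ^ 2 ≤ (4 * B.card * (4 ^ k * τ ^ k)) ^ 2 :=
            pow_le_pow_left₀ (Nat.cast_nonneg _) hKle 2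
        _ = 16 * (B.card : ℝ) ^ 2 * (16 ^ k * (τ ^ 2) ^ k) := by
            have h16 : (16 : ℝ) ^ k = (4 ^ k) ^ 2 := by
              rw [← pow_mul, mul_comm, pow_mul]; norm_num
            rw [h16, ← pow_mul τ 2 k, mul_comm 2 k, pow_mul]
            ring
    have hb0 : (0 : ℝ) ≤ (B.card : ℝ) ^ 2 := by positivity
    have hh0 : (0 : ℝ) < (h : ℝ) ^ (4 * k) := by positivity
    have e4 : (n : ℝ) ^ 2 ≤ (32 * (τ ^ 2) ^ k) * (16 ^ k * ((B.card : ℝ) ^ 2 * (h : ℝ) ^ (4 * k))) := by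
      calc (n : ℝ) ^ 2 ≤ (K : ℝ) ^ 2 * (2 * (h : ℝ) ^ (4 * k)) := e2
        _ ≤ (16 * (B.card : ℝ) ^ 2 * (16 ^ k * (τ ^ 2) ^ k)) * (2 * (h : ℝ) ^ (4 * k)) :=
            mul_le_mul_of_nonneg_right e3 (by positivity)
        _ = (32 * (τ ^ 2) ^ k) * (16 ^ k * ((B.card : ℝ) ^ 2 * (h : ℝ) ^ (4 * k))) := by ring
    have e5 : (32 * (τ ^ 2) ^ k) * (16 ^ k * ((B.card : ℝ) ^ 2 * (h : ℝ) ^ (4 * k))) ≤
        ((1 + ε) ^ k / 2) * (16 ^ k * ((B.card : ℝ) ^ 2 * (h : ℝ) ^ (4 * k))) := by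
      refine mul_le_mul_of_nonneg_right ?_ (by positivity)
      linarith
    have e6 : (8 * (h : ℝ) ^ 4) ^ k = 8 ^ k * (h : ℝ) ^ (4 * k) := by
      rw [mul_pow, ← pow_mul]
    have hpow : (0 : ℝ) < (2 * (1 + ε)) ^ k := by positivity
    rw [inv_mul_le_iff₀ hpow]
    calc (n : ℝ) ^ 2 ≤ ((1 + ε) ^ k / 2) * (16 ^ k * ((B.card : ℝ) ^ 2 * (h : ℝ) ^ (4 * k))) :=
          e4.trans e5
      _ = (2 * (1 + ε)) ^ k * ((B.card : ℝ) ^ 2 / 2 * (8 * (h : ℝ) ^ 4) ^ k) := by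
          have h16 : (16 : ℝ) ^ k = 2 ^ k * 8 ^ k := by rw [← mul_pow]; norm_num
          rw [e6, h16, mul_pow]
          ring
      _ ≤ (2 * (1 + ε)) ^ k * ((Good.card : ℝ) * (8 * (h : ℝ) ^ 4) ^ k) := by
          refine mul_le_mul_of_nonneg_left ?_ hpow.le
          exact mul_le_mul_of_nonneg_right hGood (by positivity)
  · intro L hL
    have h1 := hP3 L hL
    have h2 : (((((P : Set (ℝ × ℝ)) ∩ (L : Set (ℝ × ℝ))).ncard : ℕ) : ℝ)) ≤
        2 * (12 * h * (Nc + 1)) + 3 := by exact_mod_cast h1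
    refine h2.trans ?_
    have hn1 : (1 : ℝ) ≤ n := by
      have : 1 ≤ n := by omega
      exact_mod_cast this
    have hkpos : (0 : ℝ) < 2 * (k : ℝ) := by
      have : (0 : ℝ) < k := by exact_mod_cast hk1'
      linarith
    have hx1 : (1 : ℝ) ≤ (n : ℝ) ^ (1 / (2 * (k : ℝ))) :=
      Real.one_le_rpow hn1 (by positivity)
    have hx2 : (h : ℝ) ≤ (n : ℝ) ^ (1 / (2 * (k : ℝ))) := by
      have h3 : (h : ℝ) ^ (2 * k) ≤ n := by
        have h4 : h ^ (2 * k) ≤ n := le_trans (Nat.le_mul_of_pos_left _ hK1) hh1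
        exact_mod_cast h4
      have h5 : ((h : ℝ) ^ (2 * k)) ^ (1 / (2 * (k : ℝ))) ≤ (n : ℝ) ^ (1 / (2 * (k : ℝ))) :=
        Real.rpow_le_rpow (by positivity) h3 (by positivity)
      rw [← Real.rpow_natCast, ← Real.rpow_mul (Nat.cast_nonneg _)] at h5
      have h6 : ((2 * k : ℕ) : ℝ) * (1 / (2 * (k : ℝ))) = 1 := by
        push_cast
        field_simp
      rw [h6, Real.rpow_one] at h5
      exact h5
    have hNc0 : (0 : ℝ) ≤ Nc := Nat.cast_nonneg _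
    have h7 : (h : ℝ) * (Nc + 1) ≤ (n : ℝ) ^ (1 / (2 * (k : ℝ))) * (Nc + 1) :=
      mul_le_mul_of_nonneg_right hx2 (by linarith)
    nlinarith

theorem main (ε : ℝ) (hε : 0 < ε) :
    ∃ c₀ : ℝ, 0 < c₀ ∧ ∀ c : ℝ, 0 < c → c ≤ c₀ → ∃ C : ℝ, ∃ N : ℕ, ∀ n : ℕ, N ≤ n →
      ∃ P : Finset (ℝ × ℝ), P.card = n ∧
        c * (n : ℝ) ^ 2 ≤
          ({L : AffineSubspace ℝ (ℝ × ℝ) | Module.finrank ℝ L.direction = 1 ∧
            4 ≤ ((P : Set (ℝ × ℝ)) ∩ (L : Set (ℝ × ℝ))).ncard}.ncard : ℝ) ∧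
        ∀ L : AffineSubspace ℝ (ℝ × ℝ), Module.finrank ℝ L.direction = 1 →
          ((((P : Set (ℝ × ℝ)) ∩ (L : Set (ℝ × ℝ))).ncard : ℕ) : ℝ) ≤
            C * (n : ℝ) ^ ((Real.log 2 / 2 + ε) / Real.log (1 / c)) := by
  set ε1 : ℝ := min ε 1 with hε1def
  have hε1 : 0 < ε1 := lt_min hε one_pos
  have hε1' : ε1 ≤ 1 := min_le_right _ _
  have hε1'' : ε1 ≤ ε := min_le_left _ _
  obtain ⟨k0, hk0⟩ := mainK ε1 hε1 hε1'
  set β : ℝ := Real.log (2 * (1 + ε1)) with hβ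
  have hlog2 : 0 < Real.log 2 := Real.log_pos (by norm_num)
  have hβ1 : β ≤ Real.log 2 + ε := by
    rw [hβ, Real.log_mul (by norm_num) (by positivity)]
    have := Real.log_le_sub_one_of_pos (show 0 < 1 + ε1 by positivity)
    linarith
  have hβ0 : 0 < β := by
    rw [hβ]; exact Real.log_pos (by linarith)
  set X : ℝ := max ((Real.log 2 + 2 * ε) * (Real.log 2 + ε) / ε) (β * (k0 + 1)) with hX
  have hX0 : 0 < X := lt_of_lt_of_le (by positivity) (le_max_right _ _)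
  refine ⟨Real.exp (-X), Real.exp_pos _, fun c hc hcc => ?_⟩
  set x : ℝ := Real.log (1 / c) with hx
  have hxX : X ≤ x := by
    rw [hx, one_div, Real.log_inv]
    have := (Real.log_le_log hc hcc)
    rw [Real.log_exp] at this
    linarith
  have hx0 : 0 < x := lt_of_lt_of_le hX0 hxX
  set k : ℕ := ⌊x / β⌋₊ with hk
  have hkle : (k : ℝ) ≤ x / β := Nat.floor_le (by positivity)
  have hkge : x / β < (k : ℝ) + 1 := Nat.lt_floor_add_one _
  have hk0k : k0 ≤ k := by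
    have h1 : β * (k0 + 1) ≤ x := (le_max_right _ _).trans hxX
    have h2 : (k0 : ℝ) + 1 ≤ x / β := by
      rw [le_div_iff₀ hβ0]; linarith
    have h3 : (k0 : ℝ) < (k : ℝ) + 1 := by linarith
    have h4 : k0 < k + 1 := by exact_mod_cast h3
    omega
  have hk1 : 1 ≤ k := by
    have h1 : β * (k0 + 1) ≤ x := (le_max_right _ _).trans hxX
    have h2 : (k0 : ℝ) + 1 ≤ x / β := by
      rw [le_div_iff₀ hβ0]; linarith
    have h3 : (0 : ℝ) ≤ k0 := Nat.cast_nonneg _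
    exact Nat.le_floor (by push_cast; linarith)
  have hkpos : (0 : ℝ) < k := by exact_mod_cast hk1
  -- c is at most the density
  have hcle : c ≤ ((2 * (1 + ε1)) ^ k)⁻¹ := by
    have h1 : (k : ℝ) * β ≤ x := by
      rwa [le_div_iff₀ hβ0] at hkle
    have h2 : Real.log ((2 * (1 + ε1)) ^ k) ≤ Real.log (1 / c) := by
      rw [Real.log_pow]; exact h1
    have h3 : (2 * (1 + ε1)) ^ k ≤ 1 / c :=
      (Real.log_le_log_iff (by positivity) (by positivity)).1 h2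
    rw [le_inv_comm₀ hc (by positivity)]
    rwa [one_div] at h3
  -- the exponent
  have hexp : 1 / (2 * (k : ℝ)) ≤ (Real.log 2 / 2 + ε) / x := by
    rw [div_le_div_iff₀ (by positivity) hx0]
    have h1 : (Real.log 2 + 2 * ε) * (Real.log 2 + ε) / ε ≤ x := (le_max_left _ _).trans hxX
    have h2 : (Real.log 2 + 2 * ε) * (Real.log 2 + ε) ≤ x * ε := by
      rwa [div_le_iff₀ hε] at h1
    have h3 : x < ((k : ℝ) + 1) * β := by
      rwa [div_lt_iff₀ hβ0] at hkge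
    have h4 : x ≤ ((k : ℝ) + 1) * (Real.log 2 + ε) :=
      h3.le.trans (mul_le_mul_of_nonneg_left hβ1 (by positivity))
    have h5 : x ≤ k * (Real.log 2 + 2 * ε) := by
      have hpos : 0 < Real.log 2 + ε := by linarith
      have h6 : x * (Real.log 2 + ε) ≤ (k * (Real.log 2 + 2 * ε)) * (Real.log 2 + ε) := by
        have h7 : x * (Real.log 2 + 2 * ε) ≤
            (((k : ℝ) + 1) * (Real.log 2 + ε)) * (Real.log 2 + 2 * ε) :=
          mul_le_mul_of_nonneg_right h4 (by positivity)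
        nlinarith
      exact le_of_mul_le_mul_right h6 hpos
    linarith
  obtain ⟨C, hC, N0, hN0⟩ := hk0 k hk0k
  refine ⟨C, max N0 1, fun n hn => ?_⟩
  obtain ⟨P, hP1, hP2, hP3⟩ := hN0 n (le_trans (le_max_left _ _) hn)
  have hn1 : (1 : ℝ) ≤ n := by
    have : 1 ≤ n := le_trans (le_max_right _ _) hn
    exact_mod_cast this
  refine ⟨P, hP1, ?_, ?_⟩
  · exact (mul_le_mul_of_nonneg_right hcle (by positivity)).trans hP2
  · intro L hL
    refine (hP3 L hL).trans ?_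
    exact mul_le_mul_of_nonneg_left (Real.rpow_le_rpow_of_exponent_le hn1 hexp) hC

end Pool.Agent.H95
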